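import Mathlib

/-!
Continued fractions of type A on the Riemann sphere `OnePoint ℂ`, their value sets and
convergence sets.
-/

namespace Pool.Agent.helper37.CF

open Filter Topology

/-- The map `w ↦ a / (1 + w)` of the Riemann sphere `OnePoint ℂ` to itself: it is identically `0`
if `a = 0`; if `a ≠ 0`, the point at infinity goes to `0` and `w = -1` goes to the point at
infinity. -/
noncomputable def stepA (a : ℂ) (w : OnePoint ℂ) : OnePoint ℂ :=
  if a = 0 then ((0 : ℂ) : OnePoint ℂ)
  else OnePoint.elim w ((0 : ℂ) : OnePoint ℂ)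
    (fun w => if 1 + w = 0 then OnePoint.infty else ((a / (1 + w) : ℂ) : OnePoint ℂ))

/-- The value `s_{a₁} (s_{a₂} (⋯ s_{aₙ} 0))` of the finite continued fraction
`a₁/(1 + a₂/(1 + ⋯ + aₙ/1))` with elements `[a₁, …, aₙ]`. -/
noncomputable def valueA (l : List ℂ) : OnePoint ℂ := l.foldr stepA ((0 : ℂ) : OnePoint ℂ)

/-- The set of all values of finite type-A continued fractions (with at least one element) all of
whose elements lie in `E` is a bounded set of complex numbers. -/
def BoundedValuesA (E : Set ℂ) : Prop :=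
  ∃ M : ℝ, ∀ l : List ℂ, l ≠ [] → (∀ a ∈ l, a ∈ E) →
    ∃ z : ℂ, valueA l = (z : OnePoint ℂ) ∧ ‖z‖ ≤ M

/-- `E` is a type-A convergence set: for every sequence `a` in `E` the approximants tend to a
finite limit. -/
def ConvergenceSetA (E : Set ℂ) : Prop :=
  ∀ a : ℕ → ℂ, (∀ n, a n ∈ E) →
    ∃ L : ℂ, Tendsto (fun n : ℕ => valueA (List.ofFn (fun i : Fin n => a i))) atTop
      (𝓝 (L : OnePoint ℂ))

end Pool.Agent.helper37.CF
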