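import Mathlib

/-!
Invariant region for the type-A continued fraction maps in the coordinate `Z`.
-/

namespace Pool.Agent.helper37.CF

/-- Height function. -/
noncomputable def hh (s : ℝ) : ℝ := 1 / 16 - 1 / 32 / (1 + s ^ 2)

lemma hh_mono {s t : ℝ} (hs : 0 ≤ s) (hst : s ≤ t) : hh s ≤ hh t := by
  unfold hh
  have h1 : 1 + s ^ 2 ≤ 1 + t ^ 2 := by nlinarith
  have h2 : (1 : ℝ) / 32 / (1 + t ^ 2) ≤ 1 / 32 / (1 + s ^ 2) := by
    apply div_le_div_of_nonneg_left (by norm_num) (by positivity) h1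
  linarith

lemma hh_le (s : ℝ) : hh s ≤ 1 / 16 := by
  unfold hh
  have : 0 < (1 : ℝ) / 32 / (1 + s ^ 2) := by positivity
  linarith

lemma hh_ge (s : ℝ) : 1 / 32 ≤ hh s := by
  unfold hh
  have : (1 : ℝ) / 32 / (1 + s ^ 2) ≤ 1 / 32 := by
    apply div_le_self (by norm_num)
    nlinarith [sq_nonneg s]
  linarith

/-- The increment of `hh`. -/
lemma hh_incr {x : ℝ} (hx : 0 ≤ x) :
    3 / 320 / (1 + x) ^ 3 ≤ hh (x + 1 / 2 + 1 / 2) - hh (x + 1 / 2) := by
  have e : hh (x + 1 / 2 + 1 / 2) - hh (x + 1 / 2) =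
      1 / 32 * (x + 3 / 4) / ((1 + (x + 1 / 2) ^ 2) * (1 + (x + 1 / 2 + 1 / 2) ^ 2)) := by
    unfold hh
    have h1 : (1 + (x + 1 / 2) ^ 2) ≠ 0 := by positivity
    have h2 : (1 + (x + 1 / 2 + 1 / 2) ^ 2) ≠ 0 := by positivity
    field_simp
    ring
  rw [e, div_le_div_iff₀ (by positivity) (by positivity)]
  have h1 : 1 + (x + 1 / 2) ^ 2 ≤ 5 / 4 * (1 + x) ^ 2 := by nlinarith
  have h2 : 1 + (x + 1 / 2 + 1 / 2) ^ 2 ≤ 2 * (1 + x) ^ 2 := by nlinarith
  have h3 : (1 + (x + 1 / 2) ^ 2) * (1 + (x + 1 / 2 + 1 / 2) ^ 2) ≤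
      5 / 4 * (1 + x) ^ 2 * (2 * (1 + x) ^ 2) := by
    apply mul_le_mul h1 h2 (by positivity) (by positivity)
  have h4 : 3 / 4 * (1 + x) ≤ x + 3 / 4 := by nlinarith
  have h5 : 3 / 4 * (1 + x) * (1 + x) ^ 3 ≤ (x + 3 / 4) * (1 + x) ^ 3 :=
    mul_le_mul_of_nonneg_right h4 (by positivity)
  nlinarith

/-- Complement of the invariant region. -/
def NW (X Y : ℝ) : Prop := Y < 0 ∨ (X < 1 / 2 ∧ Y < hh (1 / 2 - X))

structure Par (p q : ℝ) : Prop where
  p0 : 0 < p
  p1 : p ≤ 1 / 256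
  q0 : 0 < q
  q1 : q ≤ p
  pq : p ^ 5 ≤ q ^ 4

variable {p q X Y : ℝ}

/-- Case of large horizontal distance: `p x ≤ 1/16`. -/
lemma px_le (h : Par p q) {x : ℝ} (hx : 0 ≤ x)
    (hq : q * x ^ 2 ≤ 3 / 32) : p * x ≤ 1 / 16 := by
  by_contra hc
  push Not at hc
  have hp := h.p0
  have hq0 := h.q0
  have hx16 : 16 < x := by
    by_contra h16
    push Not at h16
    have : p * x ≤ 1 / 256 * 16 := mul_le_mul h.p1 h16 hx (by norm_num)
    linarith
  have h1 : (q * x ^ 2) ^ 4 ≤ (3 / 32) ^ 4 := pow_le_pow_left₀ (by positivity) hq 4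
  have h2 : p ^ 5 * x ^ 8 ≤ q ^ 4 * x ^ 8 := mul_le_mul_of_nonneg_right h.pq (by positivity)
  have h3 : (p * x) ^ 5 * x ^ 3 ≤ (3 / 32) ^ 4 := by
    calc (p * x) ^ 5 * x ^ 3 = p ^ 5 * x ^ 8 := by ring
      _ ≤ q ^ 4 * x ^ 8 := h2
      _ = (q * x ^ 2) ^ 4 := by ring
      _ ≤ _ := h1
  have h4 : (1 / 16 : ℝ) ^ 5 ≤ (p * x) ^ 5 := pow_le_pow_left₀ (by norm_num) hc.le 5
  have h5 : (16 : ℝ) ^ 3 ≤ x ^ 3 := pow_le_pow_left₀ (by norm_num) hx16.le 3
  have h6 : (1 / 16 : ℝ) ^ 5 * 16 ^ 3 ≤ (p * x) ^ 5 * x ^ 3 :=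
    mul_le_mul h4 h5 (by positivity) (by positivity)
  norm_num at h6 h3
  linarith

/-- The slack inequality. -/
lemma slack (h : Par p q) {x : ℝ} (hx : 0 ≤ x) :
    1 / 8 * p * (1 + x) ≤ (hh (x + 1 / 2 + 1 / 2) - hh (x + 1 / 2)) + q * x ^ 2 := by
  have hp := h.p0
  have hq0 := h.q0
  have hinc := hh_incr hx
  have hx1 : 0 < 1 + x := by linarith
  by_cases hc : 1 ≤ x ∧ p / 4 ≤ q * x
  · obtain ⟨h1, h2⟩ := hc
    have h3 : p / 4 * x ≤ q * x * x := mul_le_mul_of_nonneg_right h2 hx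
    have h4 : 0 ≤ 3 / 320 / (1 + x) ^ 3 := by positivity
    nlinarith [mul_le_mul_of_nonneg_left h1 hp.le]
  · have key : p * (1 + x) ^ 4 ≤ 1 / 16 := by
      rcases not_and_or.mp hc with h1 | h2
      · push Not at h1
        have h3 : (1 + x) ^ 4 ≤ 2 ^ 4 := pow_le_pow_left₀ hx1.le (by linarith) 4
        have h4 : p * (1 + x) ^ 4 ≤ 1 / 256 * 2 ^ 4 := mul_le_mul h.p1 h3 (by positivity) (by norm_num)
        norm_num at h4
        linarith
      · push Not at h2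
        by_cases h1 : 1 ≤ x
        · have h3 : (q * x) ^ 4 ≤ (p / 4) ^ 4 := pow_le_pow_left₀ (by positivity) h2.le 4
          have h4 : p ^ 5 * x ^ 4 ≤ q ^ 4 * x ^ 4 := mul_le_mul_of_nonneg_right h.pq (by positivity)
          have h5 : p ^ 4 * (p * x ^ 4) ≤ p ^ 4 * (1 / 256) := by
            calc p ^ 4 * (p * x ^ 4) = p ^ 5 * x ^ 4 := by ring
              _ ≤ q ^ 4 * x ^ 4 := h4
              _ = (q * x) ^ 4 := by ring
              _ ≤ (p / 4) ^ 4 := h3
              _ = p ^ 4 * (1 / 256) := by ring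
          have h6 : p * x ^ 4 ≤ 1 / 256 := le_of_mul_le_mul_left h5 (by positivity)
          have h7 : (1 + x) ^ 4 ≤ (2 * x) ^ 4 := pow_le_pow_left₀ hx1.le (by linarith) 4
          have h8 : p * (1 + x) ^ 4 ≤ p * (2 * x) ^ 4 := mul_le_mul_of_nonneg_left h7 hp.le
          calc p * (1 + x) ^ 4 ≤ p * (2 * x) ^ 4 := h8
            _ = 16 * (p * x ^ 4) := by ring
            _ ≤ 16 * (1 / 256) := by linarith
            _ = 1 / 16 := by norm_num
        · push Not at h1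
          have h3 : (1 + x) ^ 4 ≤ 2 ^ 4 := pow_le_pow_left₀ hx1.le (by linarith) 4
          have h4 : p * (1 + x) ^ 4 ≤ 1 / 256 * 2 ^ 4 :=
            mul_le_mul h.p1 h3 (by positivity) (by norm_num)
          norm_num at h4
          linarith
    have h9 : 1 / 8 * p * (1 + x) ≤ 3 / 320 / (1 + x) ^ 3 := by
      rw [le_div_iff₀ (by positivity)]
      calc 1 / 8 * p * (1 + x) * (1 + x) ^ 3 = 1 / 8 * (p * (1 + x) ^ 4) := by ring
        _ ≤ 1 / 8 * (1 / 16) := by linarith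
        _ ≤ 3 / 320 := by norm_num
    have h10 : 0 ≤ q * x ^ 2 := by positivity
    linarith

/-- Numerators and denominator of the inverse map. -/
lemma nw_step (h : Par p q) (hN : NW X Y) {N X' Y' : ℝ}
    (eN : N = (1 + p * X - q * Y) ^ 2 + (p * Y + q * X) ^ 2) (hNpos : 0 < N)
    (eX : X' * N = (X - 1) + p * (X ^ 2 + Y ^ 2) - (p * X - q * Y))
    (eY : Y' * N = Y * (1 + p) - q * (X ^ 2 + Y ^ 2 - X)) : NW X' Y' := by
  obtain ⟨p0, p1, q0, q1, pq⟩ := h
  have h : Par p q := ⟨p0, p1, q0, q1, pq⟩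
  rcases lt_or_ge Y' 0 with hY' | hY'
  · exact Or.inl hY'
  have hYN : 0 ≤ Y' * N := mul_nonneg hY' hNpos.le
  rw [eY] at hYN
  right
  rcases lt_or_ge Y 0 with hY | hY
  · -- `Y < 0`
    have h1 : X ^ 2 + Y ^ 2 - X < 0 := by
      by_contra hc
      push Not at hc
      have : 0 ≤ q * (X ^ 2 + Y ^ 2 - X) := by positivity
      nlinarith
    have hX0 : 0 < X := by nlinarith [sq_nonneg X, sq_nonneg Y]
    have hX1 : X < 1 := by nlinarith [sq_nonneg X, sq_nonneg Y]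
    have hY2 : Y ^ 2 ≤ 1 / 4 := by nlinarith [sq_nonneg (X - 1 / 2)]
    have hY3 : -(1 / 2) ≤ Y := by nlinarith
    have hXN : X' * N < 0 := by
      rw [eX]
      nlinarith [mul_pos p0 hX0, mul_neg_of_pos_of_neg q0 hY,
        mul_neg_of_pos_of_neg p0 h1]
    have hX' : X' < 0 := by
      by_contra hc
      push Not at hc
      nlinarith [mul_nonneg hc hNpos.le]
    have hN1 : 1 / 2 ≤ N := by
      have : 15 / 16 ≤ 1 + p * X - q * Y := by
        nlinarith [mul_pos p0 hX0, mul_neg_of_pos_of_neg q0 hY]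
      rw [eN]
      nlinarith [sq_nonneg (p * Y + q * X)]
    have hYb : Y' * N ≤ q * (1 / 4) := by
      rw [eY]
      nlinarith [mul_neg_of_pos_of_neg p0 hY, sq_nonneg (X - 1 / 2),
        mul_nonneg q0.le (sq_nonneg (X - 1 / 2)), mul_nonneg q0.le (sq_nonneg Y)]
    refine ⟨by linarith, ?_⟩
    have h2 : Y' * (1 / 2) ≤ Y' * N := mul_le_mul_of_nonneg_left hN1 hY'
    have h3 := hh_ge (1 / 2 - X')
    nlinarith
  · -- `0 ≤ Y`
    rcases hN with hN | ⟨hX, hYh⟩
    · exact absurd hN (not_lt.mpr hY)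
    have hYr : Y < 1 / 16 := lt_of_lt_of_le hYh (hh_le _)
    -- bound on `p X`
    have hpX : -(1 / 16) ≤ p * X := by
      rcases lt_or_ge X 0 with hX0 | hX0
      · have hq3 : q * (-X) ^ 2 ≤ 3 / 32 := by
          nlinarith [mul_nonneg q0.le (sq_nonneg Y), mul_pos q0 (neg_pos.mpr hX0)]
        have := px_le h (x := -X) (by linarith) hq3
        linarith
      · nlinarith [mul_nonneg p0.le hX0]
    have hY2 : Y ^ 2 ≤ 1 / 256 := by nlinarith
    have hq2 : q ^ 2 ≤ p ^ 2 := by nlinarith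
    -- the real part
    have hXbound : (1 / 2 - X) * N ≤ -X' * N := by
      have e1 : -X' * N - (1 / 2 - X) * N = 1 / 2 + p * X ^ 2 - p * Y ^ 2 - 2 * q * X * Y -
          (1 / 2 - X) * ((p ^ 2 + q ^ 2) * (X ^ 2 + Y ^ 2)) := by
        have : -X' * N = -(X' * N) := by ring
        rw [this, eX, eN]
        ring
      have e2 : (1 / 2 - X) * ((p ^ 2 + q ^ 2) * (X ^ 2 + Y ^ 2)) ≤
          (1 / 2 - X) * ((2 * p ^ 2) * (X ^ 2 + Y ^ 2)) := by
        apply mul_le_mul_of_nonneg_left _ (by linarith)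
        apply mul_le_mul_of_nonneg_right (by linarith) (by positivity)
      have e3 : (1 / 2 - X) * ((2 * p ^ 2) * (X ^ 2 + Y ^ 2)) =
          2 * (p * (1 / 2 - X)) * (p * (X ^ 2 + Y ^ 2)) := by ring
      have e4 : p * (1 / 2 - X) ≤ 1 / 8 := by
        have : p * (1 / 2 - X) = p / 2 - p * X := by ring
        rw [this]
        linarith
      have e5 : 0 ≤ p * (X ^ 2 + Y ^ 2) := by positivity
      have e6 : 2 * (p * (1 / 2 - X)) * (p * (X ^ 2 + Y ^ 2)) ≤ 1 / 4 * (p * (X ^ 2 + Y ^ 2)) :=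
        mul_le_mul_of_nonneg_right (by linarith) e5
      have e7 : 2 * q * X * Y ≤ 1 / 8 + p * X ^ 2 / 4 := by
        rcases lt_or_ge X 0 with hX0 | hX0
        · have : q * X * Y ≤ 0 := by
            have := mul_nonneg (mul_pos q0 (neg_pos.mpr hX0)).le hY
            nlinarith
          have h9 : 0 ≤ p * X ^ 2 := by positivity
          nlinarith
        · have h8 : q * X * Y ≤ 1 / 256 * (1 / 2) * (1 / 16) := by
            apply mul_le_mul _ hYr.le hY (by norm_num)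
            apply mul_le_mul (by linarith) hX.le hX0 (by norm_num)
          have h9 : 0 ≤ p * X ^ 2 := by positivity
          nlinarith
      have e8 : p * Y ^ 2 ≤ 1 / 256 * (1 / 256) := mul_le_mul p1 hY2 (by positivity) (by norm_num)
      have e9 : 0 ≤ p * X ^ 2 := by positivity
      rw [e3] at e2
      have e10 : p * (X ^ 2 + Y ^ 2) = p * X ^ 2 + p * Y ^ 2 := by ring
      have e11 := e2.trans e6
      rw [e10] at e11
      linarith
    have hs : 1 / 2 - X + 1 / 2 ≤ 1 / 2 - X' := by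
      have : 1 / 2 - X ≤ -X' := le_of_mul_le_mul_right hXbound hNpos
      linarith
    have hX'2 : X' < 1 / 2 := by linarith
    refine ⟨hX'2, ?_⟩
    have hmono : hh (1 / 2 - X + 1 / 2) ≤ hh (1 / 2 - X') := hh_mono (by linarith) hs
    refine lt_of_lt_of_le ?_ hmono
    -- the imaginary part
    have hNlow : 1 + 2 * (p * X - q * Y) ≤ N := by
      rw [eN]
      nlinarith [sq_nonneg (p * X - q * Y), sq_nonneg (p * Y + q * X)]
    have hup := hh_le (1 / 2 - X + 1 / 2)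
    have hlo := hh_ge (1 / 2 - X + 1 / 2)
    suffices hsuff : Y' * N < hh (1 / 2 - X + 1 / 2) * N from lt_of_mul_lt_mul_right hsuff hNpos.le
    have h1 : hh (1 / 2 - X + 1 / 2) * (1 + 2 * (p * X - q * Y)) ≤ hh (1 / 2 - X + 1 / 2) * N :=
      mul_le_mul_of_nonneg_left hNlow (by linarith)
    refine lt_of_lt_of_le ?_ h1
    rw [eY]
    have hqY : 0 ≤ q * Y := by positivity
    have hpY : p * Y ≤ p * (1 / 16) := mul_le_mul_of_nonneg_left hYr.le p0.le
    have hqY2 : q * Y ≤ p * (1 / 16) := mul_le_mul q1 hYr.le hY p0.le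
    rcases le_or_gt X 0 with hX0 | hX0
    · have hsl := slack h (x := -X) (by linarith)
      have e0 : -X + 1 / 2 = 1 / 2 - X := by ring
      rw [e0] at hsl
      have e1 : hh (1 / 2 - X + 1 / 2) * (2 * (p * X - q * Y)) ≥
          1 / 16 * (2 * (p * X - q * Y)) := by
        have : p * X - q * Y ≤ 0 := by nlinarith
        nlinarith
      have e2 : 0 ≤ q * Y ^ 2 := by positivity
      have e3 : 0 ≤ q * (-X) := mul_nonneg q0.le (by linarith)
      nlinarith
    · have e0 : hh (1 / 2 - X) ≤ hh (1 / 2 - X + 1 / 2) - 1 / 400 := by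
        have e1 : hh (1 / 2 - X + 1 / 2) - hh (1 / 2 - X) =
          1 / 32 * (1 / 2 - X + 1 / 4) /
            ((1 + (1 / 2 - X) ^ 2) * (1 + (1 / 2 - X + 1 / 2) ^ 2)) := by
          unfold hh
          have h1 : (1 + (1 / 2 - X) ^ 2) ≠ 0 := by positivity
          have h2 : (1 + (1 / 2 - X + 1 / 2) ^ 2) ≠ 0 := by positivity
          field_simp
          ring
        have e2 : 1 / 400 ≤ 1 / 32 * (1 / 2 - X + 1 / 4) /
            ((1 + (1 / 2 - X) ^ 2) * (1 + (1 / 2 - X + 1 / 2) ^ 2)) := by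
          rw [le_div_iff₀ (by positivity)]
          have h3 : (1 + (1 / 2 - X) ^ 2) ≤ 1 + (1 / 2 - X) * (1 / 2) := by nlinarith
          have h4 : (1 + (1 / 2 - X + 1 / 2) ^ 2) ≤ 2 := by nlinarith
          have h5 : (1 + (1 / 2 - X) ^ 2) * (1 + (1 / 2 - X + 1 / 2) ^ 2) ≤
              (1 + (1 / 2 - X) * (1 / 2)) * 2 :=
            mul_le_mul h3 h4 (by positivity) (by nlinarith)
          nlinarith
        linarith
      have e3 : hh (1 / 2 - X + 1 / 2) * (2 * (p * X - q * Y)) ≥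
          - (1 / 16 * (2 * (q * Y))) := by
        have h6 : 0 ≤ p * X := by positivity
        nlinarith
      have e4 : q * (X - X ^ 2) ≤ q * (1 / 4) := by
        apply mul_le_mul_of_nonneg_left _ q0.le
        nlinarith [sq_nonneg (X - 1 / 2)]
      have e5 : 0 ≤ q * Y ^ 2 := by positivity
      nlinarith

end Pool.Agent.helper37.CF
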