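import Mathlib
import Pool.Agent.helper37.CfInv

/-!
The parameters of the blocks.
-/

namespace Pool.Agent.helper37.CF

open Complex

/-- The exponent. -/
noncomputable def xx (N : ℕ) : ℂ := ((-(4 / Real.sqrt N) : ℝ) + (Real.pi : ℂ) * I) / N

/-- The parameter `t`. -/
noncomputable def tt (N : ℕ) : ℂ := -I * ((exp (xx N) - 1) / (exp (xx N) + 1))

/-- The number `ρ`. -/
noncomputable def rho (N : ℕ) : ℝ := Real.exp (-(4 / Real.sqrt N))

/-- The number `τ`. -/
noncomputable def ta (N : ℕ) : ℝ := (1 - rho N) / (1 + rho N)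

lemma rho_pos (N : ℕ) : 0 < rho N := Real.exp_pos _

lemma ta_nonneg (N : ℕ) : 0 ≤ ta N := by
  unfold ta
  have h1 : rho N ≤ 1 := by
    unfold rho
    rw [Real.exp_le_one_iff]
    have : 0 ≤ 4 / Real.sqrt N := by positivity
    linarith
  have := rho_pos N
  apply div_nonneg <;> linarith

lemma ta_le (N : ℕ) : ta N ≤ 4 / Real.sqrt N := by
  unfold ta
  have h0 := rho_pos N
  have h1 : 1 - 4 / Real.sqrt N ≤ rho N := by
    unfold rho
    have := Real.add_one_le_exp (-(4 / Real.sqrt N))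
    linarith
  have h2 : 0 ≤ 4 / Real.sqrt N := by positivity
  rw [div_le_iff₀ (by linarith)]
  nlinarith

lemma rho_eq (N : ℕ) : (1 - ta N) = rho N * (1 + ta N) := by
  unfold ta
  have h0 := rho_pos N
  have h1 : 1 + rho N ≠ 0 := by linarith
  field_simp
  ring

section bounds

variable {N : ℕ} (hN : 8192 ≤ N)

include hN

lemma sqrt_ge : 90 ≤ Real.sqrt N := by
  apply Real.le_sqrt_of_sq_le
  have : (8192 : ℝ) ≤ N := by exact_mod_cast hN
  linarith

lemma norm_xx_le : ‖xx N‖ ≤ 3.2 / N := by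
  have h1 := sqrt_ge hN
  have hNr : (8192 : ℝ) ≤ N := by exact_mod_cast hN
  unfold xx
  rw [norm_div, Complex.norm_natCast]
  apply div_le_div_of_nonneg_right _ (by positivity)
  have h2 : ‖((-(4 / Real.sqrt N) : ℝ) : ℂ)‖ ≤ 4 / 90 := by
    rw [Complex.norm_real, Real.norm_eq_abs, abs_neg, abs_of_nonneg (by positivity)]
    exact div_le_div_of_nonneg_left (by norm_num) (by norm_num) h1
  have h3 : ‖(Real.pi : ℂ) * I‖ ≤ 3.15 := by
    rw [norm_mul, Complex.norm_I, mul_one, Complex.norm_real, Real.norm_eq_abs,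
      abs_of_pos Real.pi_pos]
    exact Real.pi_lt_d2.le
  calc _ ≤ ‖((-(4 / Real.sqrt N) : ℝ) : ℂ)‖ + ‖(Real.pi : ℂ) * I‖ := norm_add_le _ _
    _ ≤ 4 / 90 + 3.15 := add_le_add h2 h3
    _ ≤ 3.2 := by norm_num

lemma norm_xx_ge : 3.14 / N ≤ ‖xx N‖ := by
  have hNr : (8192 : ℝ) ≤ N := by exact_mod_cast hN
  unfold xx
  rw [norm_div, Complex.norm_natCast]
  apply div_le_div_of_nonneg_right _ (by positivity)
  have h1 := Complex.abs_im_le_norm (((-(4 / Real.sqrt N) : ℝ) : ℂ) + (Real.pi : ℂ) * I)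
  have h2 : (((-(4 / Real.sqrt N) : ℝ) : ℂ) + (Real.pi : ℂ) * I).im = Real.pi := by
    simp only [add_im, ofReal_im, mul_im, ofReal_re, I_im, I_re]
    ring
  rw [h2, abs_of_pos Real.pi_pos] at h1
  have := Real.pi_gt_d2
  linarith

lemma norm_xx_small : ‖xx N‖ ≤ 1 / 2560 := by
  have h1 := norm_xx_le hN
  have hNr : (8192 : ℝ) ≤ N := by exact_mod_cast hN
  refine h1.trans ?_
  rw [div_le_div_iff₀ (by positivity) (by norm_num)]
  linarith

lemma exp_rem : ‖exp (xx N) - 1 - xx N‖ ≤ ‖xx N‖ ^ 2 :=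
  Complex.norm_exp_sub_one_sub_id_le (by linarith [norm_xx_small hN])

lemma den_ge : 1.9 ≤ ‖exp (xx N) + 1‖ := by
  have h1 := exp_rem hN
  have h2 := norm_xx_small hN
  have h3 : exp (xx N) + 1 = 2 + (xx N + (exp (xx N) - 1 - xx N)) := by ring
  have h4 : ‖xx N + (exp (xx N) - 1 - xx N)‖ ≤ 0.1 := by
    refine (norm_add_le _ _).trans ?_
    nlinarith [norm_nonneg (xx N)]
  have h5 : ‖(2 : ℂ)‖ = 2 := by simp
  have h6 := norm_sub_norm_le (2 : ℂ) (-(xx N + (exp (xx N) - 1 - xx N)))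
  rw [sub_neg_eq_add, ← h3, norm_neg, h5] at h6
  linarith

lemma den_ne : exp (xx N) + 1 ≠ 0 := by
  intro h
  have := den_ge hN
  rw [h, norm_zero] at this
  norm_num at this

lemma yy_sub : ‖(exp (xx N) - 1) / (exp (xx N) + 1) - xx N / 2‖ ≤ ‖xx N‖ ^ 2 := by
  have hne := den_ne hN
  have hge := den_ge hN
  have h1 := exp_rem hN
  have h2 := norm_xx_small hN
  set x := xx N with hx
  set R := exp x - 1 - x with hR
  have e : (exp x - 1) / (exp x + 1) - x / 2 = (2 * R - x ^ 2 - x * R) / (2 * (exp x + 1)) := by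
    rw [eq_div_iff (mul_ne_zero two_ne_zero hne), sub_mul]
    have : (exp x - 1) / (exp x + 1) * (2 * (exp x + 1)) = 2 * (exp x - 1) := by
      field_simp
    rw [this, hR]
    ring
  rw [e, norm_div, div_le_iff₀ (by
    rw [norm_mul]
    have : ‖(2 : ℂ)‖ = 2 := by simp
    rw [this]
    linarith)]
  have h3 : ‖2 * R - x ^ 2 - x * R‖ ≤ 2 * ‖x‖ ^ 2 + ‖x‖ ^ 2 + ‖x‖ * ‖x‖ ^ 2 := by
    refine (norm_sub_le _ _).trans (add_le_add ((norm_sub_le _ _).trans (add_le_add ?_ ?_)) ?_)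
    · rw [norm_mul]
      have : ‖(2 : ℂ)‖ = 2 := by simp
      rw [this]
      linarith
    · rw [norm_pow]
    · rw [norm_mul]
      exact mul_le_mul_of_nonneg_left h1 (norm_nonneg _)
  refine h3.trans ?_
  rw [norm_mul]
  have h5 : ‖(2 : ℂ)‖ = 2 := by simp
  rw [h5]
  have h6 : 0 ≤ ‖x‖ ^ 2 := by positivity
  nlinarith [norm_nonneg x]

lemma norm_tt : ‖tt N‖ = ‖(exp (xx N) - 1) / (exp (xx N) + 1)‖ := by
  unfold tt
  rw [norm_mul, norm_neg, Complex.norm_I, one_mul]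

lemma norm_tt_le : ‖tt N‖ ≤ 1.7 / N := by
  rw [norm_tt hN]
  have h1 := yy_sub hN
  have h2 := norm_xx_small hN
  have h3 := norm_xx_le hN
  have h4 := norm_sub_norm_le ((exp (xx N) - 1) / (exp (xx N) + 1)) (xx N / 2)
  have h5 : ‖xx N / 2‖ = ‖xx N‖ / 2 := by
    rw [norm_div]
    simp
  rw [h5] at h4
  have h6 : ‖(exp (xx N) - 1) / (exp (xx N) + 1)‖ ≤ ‖xx N‖ * (1 / 2 + 1 / 2560) := by
    nlinarith [norm_nonneg (xx N)]
  refine h6.trans ?_
  calc ‖xx N‖ * (1 / 2 + 1 / 2560) ≤ 3.2 / N * (1 / 2 + 1 / 2560) :=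
        mul_le_mul_of_nonneg_right h3 (by norm_num)
    _ = (3.2 * (1 / 2 + 1 / 2560)) / N := by ring
    _ ≤ 1.7 / N := by
        apply div_le_div_of_nonneg_right _ (by positivity)
        norm_num

lemma norm_tt_ge : 1.5 / N ≤ ‖tt N‖ := by
  rw [norm_tt hN]
  have h1 := yy_sub hN
  have h2 := norm_xx_small hN
  have h3 := norm_xx_ge hN
  have h4 := norm_sub_norm_le (xx N / 2) ((exp (xx N) - 1) / (exp (xx N) + 1))
  rw [norm_sub_rev] at h4
  have h5 : ‖xx N / 2‖ = ‖xx N‖ / 2 := by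
    rw [norm_div]
    simp
  rw [h5] at h4
  have h6 : ‖xx N‖ * (1 / 2 - 1 / 2560) ≤ ‖(exp (xx N) - 1) / (exp (xx N) + 1)‖ := by
    nlinarith [norm_nonneg (xx N)]
  refine le_trans ?_ h6
  calc 1.5 / (N : ℝ) ≤ (3.14 * (1 / 2 - 1 / 2560)) / N := by
        apply div_le_div_of_nonneg_right _ (by positivity)
        norm_num
    _ = 3.14 / N * (1 / 2 - 1 / 2560) := by ring
    _ ≤ _ := mul_le_mul_of_nonneg_right h3 (by norm_num)

lemma tt_ne : tt N ≠ 0 := by
  intro h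
  have h1 := norm_tt_ge hN
  have hNr : (8192 : ℝ) ≤ N := by exact_mod_cast hN
  rw [h, norm_zero] at h1
  have : 0 < 1.5 / (N : ℝ) := by positivity
  linarith

lemma tt_sq_sub : ‖tt N ^ 2 + xx N ^ 2 / 4‖ ≤ 34 / (N : ℝ) ^ 3 := by
  have h1 := yy_sub hN
  have h2 := norm_xx_small hN
  have h3 := norm_xx_le hN
  set y := (exp (xx N) - 1) / (exp (xx N) + 1) with hy
  have e : tt N ^ 2 + xx N ^ 2 / 4 = -((y - xx N / 2) * ((y - xx N / 2) + xx N)) := by
    have e1 : tt N = -I * y := rfl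
    rw [e1]
    linear_combination y ^ 2 * Complex.I_sq
  rw [e, norm_neg, norm_mul]
  have h4 : ‖y - xx N / 2 + xx N‖ ≤ ‖xx N‖ ^ 2 + ‖xx N‖ := (norm_add_le _ _).trans (by linarith)
  have h5 : ‖y - xx N / 2‖ * ‖y - xx N / 2 + xx N‖ ≤ ‖xx N‖ ^ 2 * (‖xx N‖ ^ 2 + ‖xx N‖) :=
    mul_le_mul h1 h4 (norm_nonneg _) (by positivity)
  have h6 : ‖xx N‖ ^ 2 * (‖xx N‖ ^ 2 + ‖xx N‖) ≤ ‖xx N‖ ^ 3 * (1 + 1 / 2560) := by
    have : 0 ≤ ‖xx N‖ ^ 3 := by positivity
    nlinarith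
  have h7 : ‖xx N‖ ^ 3 ≤ (3.2 / N) ^ 3 := pow_le_pow_left₀ (norm_nonneg _) h3 3
  calc _ ≤ _ := h5
    _ ≤ _ := h6
    _ ≤ (3.2 / N) ^ 3 * (1 + 1 / 2560) := mul_le_mul_of_nonneg_right h7 (by norm_num)
    _ = (3.2 ^ 3 * (1 + 1 / 2560)) / (N : ℝ) ^ 3 := by ring
    _ ≤ 34 / (N : ℝ) ^ 3 := by
        apply div_le_div_of_nonneg_right _ (by positivity)
        norm_num

lemma xx_sq : -(xx N ^ 2 / 4) =
    (((Real.pi ^ 2 / 4 - 4 / N) / N ^ 2 : ℝ) : ℂ) +
      ((2 * Real.pi / Real.sqrt N / N ^ 2 : ℝ) : ℂ) * I := by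
  have hNr : (8192 : ℝ) ≤ N := by exact_mod_cast hN
  have hs : Real.sqrt N ^ 2 = N := Real.sq_sqrt (by linarith)
  have hs0 : Real.sqrt N ≠ 0 := by
    have := sqrt_ge hN
    linarith
  have hsC : (Real.sqrt N : ℂ) ^ 2 = N := by exact_mod_cast hs
  have hs0C : (Real.sqrt N : ℂ) ≠ 0 := by exact_mod_cast hs0
  have hNC : (N : ℂ) ≠ 0 := by
    have : (N : ℝ) ≠ 0 := by linarith
    exact_mod_cast this
  unfold xx
  push_cast
  rw [← hsC]
  have hI := Complex.I_sq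
  field_simp
  linear_combination (-(Real.pi : ℂ) ^ 2 * (Real.sqrt N : ℂ) ^ 2) * hI

lemma par_tt : Par (tt N ^ 2).re (tt N ^ 2).im := by
  have hNr : (8192 : ℝ) ≤ N := by exact_mod_cast hN
  have hs2 : Real.sqrt N ^ 2 = N := Real.sq_sqrt (by linarith)
  have hs := sqrt_ge hN
  have hsub := tt_sq_sub hN
  have hxx := xx_sq hN
  have hpi1 := Real.pi_gt_d2
  have hpi2 := Real.pi_lt_d2
  set s := Real.sqrt N with hsdef
  set n : ℝ := (N : ℝ) with hn
  have hnpos : 0 < n := by linarith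
  have e : tt N ^ 2 + xx N ^ 2 / 4 = tt N ^ 2 - -(xx N ^ 2 / 4) := by ring
  rw [e, hxx] at hsub
  set T := tt N ^ 2 with hT
  have hre := (Complex.abs_re_le_norm _).trans hsub
  have him := (Complex.abs_im_le_norm _).trans hsub
  simp only [sub_re, add_re, ofReal_re, mul_re, ofReal_im, I_re, I_im, sub_im, add_im, mul_im,
    mul_zero, zero_mul, mul_one, sub_zero, add_zero, zero_add] at hre him
  rw [abs_le] at hre him
  obtain ⟨hre1, hre2⟩ := hre
  obtain ⟨him1, him2⟩ := him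
  -- scaled quantities
  set p := T.re with hp
  set q := T.im with hq
  have hn2 : 0 < n ^ 2 := by positivity
  have hP1 : 2.4 / n ^ 2 ≤ p := by
    have h1 : 2.4 / n ^ 2 + 34 / n ^ 3 ≤ (Real.pi ^ 2 / 4 - 4 / n) / n ^ 2 := by
      rw [show (34 : ℝ) / n ^ 3 = (34 / n) / n ^ 2 by field_simp, ← add_div]
      apply div_le_div_of_nonneg_right _ hn2.le
      have h2 : 34 / n ≤ 0.01 := by
        rw [div_le_iff₀ hnpos]
        linarith
      have h3 : 4 / n ≤ 0.01 := by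
        rw [div_le_iff₀ hnpos]
        linarith
      nlinarith
    linarith
  have hP2 : p ≤ 2.5 / n ^ 2 := by
    have h1 : (Real.pi ^ 2 / 4 - 4 / n) / n ^ 2 + 34 / n ^ 3 ≤ 2.5 / n ^ 2 := by
      rw [show (34 : ℝ) / n ^ 3 = (34 / n) / n ^ 2 by field_simp, ← add_div]
      apply div_le_div_of_nonneg_right _ hn2.le
      have h2 : 34 / n ≤ 0.01 := by
        rw [div_le_iff₀ hnpos]
        linarith
      have h3 : 0 ≤ 4 / n := by positivity
      nlinarith
    linarith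
  have hspos : 0 < s := by linarith
  have h34 : 34 / n ≤ 0.38 / s := by
    rw [div_le_div_iff₀ hnpos hspos]
    rw [← hs2]
    nlinarith
  have hQ1 : 5.8 / s / n ^ 2 ≤ q := by
    have h1 : 5.8 / s / n ^ 2 + 34 / n ^ 3 ≤ 2 * Real.pi / s / n ^ 2 := by
      rw [show (34 : ℝ) / n ^ 3 = (34 / n) / n ^ 2 by field_simp, ← add_div]
      apply div_le_div_of_nonneg_right _ hn2.le
      calc 5.8 / s + 34 / n ≤ 5.8 / s + 0.38 / s := by linarith
        _ = 6.18 / s := by ring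
        _ ≤ 2 * Real.pi / s := by
          apply div_le_div_of_nonneg_right _ hspos.le
          linarith
    linarith
  have hQ2 : q ≤ 7 / s / n ^ 2 := by
    have h1 : 2 * Real.pi / s / n ^ 2 + 34 / n ^ 3 ≤ 7 / s / n ^ 2 := by
      rw [show (34 : ℝ) / n ^ 3 = (34 / n) / n ^ 2 by field_simp, ← add_div]
      apply div_le_div_of_nonneg_right _ hn2.le
      calc 2 * Real.pi / s + 34 / n ≤ 2 * Real.pi / s + 0.38 / s := by linarith
        _ = (2 * Real.pi + 0.38) / s := by ring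
        _ ≤ 7 / s := by
          apply div_le_div_of_nonneg_right _ hspos.le
          linarith
    linarith
  refine ⟨lt_of_lt_of_le (by positivity) hP1, ?_, lt_of_lt_of_le (by positivity) hQ1, ?_, ?_⟩
  · refine hP2.trans ?_
    rw [div_le_div_iff₀ hn2 (by norm_num)]
    nlinarith
  · refine hQ2.trans (le_trans ?_ hP1)
    apply div_le_div_of_nonneg_right _ hn2.le
    rw [div_le_iff₀ hspos]
    linarith
  · have hp0 : 0 ≤ p := le_trans (by positivity) hP1
    calc p ^ 5 ≤ (2.5 / n ^ 2) ^ 5 := pow_le_pow_left₀ hp0 hP2 5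
      _ = 2.5 ^ 5 / n ^ 10 := by
        rw [div_pow]
        ring
      _ ≤ 5.8 ^ 4 / n ^ 10 := by
        apply div_le_div_of_nonneg_right _ (by positivity)
        norm_num
      _ = (5.8 / s / n ^ 2) ^ 4 := by
        have h1 : s ^ 4 = n ^ 2 := by
          rw [show s ^ 4 = (s ^ 2) ^ 2 by ring, hs2]
        rw [div_pow, div_pow, h1, div_div]
        congr 1
        ring
      _ ≤ q ^ 4 := pow_le_pow_left₀ (by positivity) hQ1 4

/-- The key identity. -/
lemma tt_pow : (1 + I * tt N) ^ N = -(rho N : ℂ) * (1 - I * tt N) ^ N := by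
  have hne := den_ne hN
  have hNr : (8192 : ℝ) ≤ N := by exact_mod_cast hN
  have hNC : (N : ℂ) ≠ 0 := by
    have : (N : ℝ) ≠ 0 := by linarith
    exact_mod_cast this
  have e1 : 1 + I * tt N = exp (xx N) * (1 - I * tt N) := by
    unfold tt
    have hI := Complex.I_sq
    have e2 : I * (-I * ((exp (xx N) - 1) / (exp (xx N) + 1))) =
        (exp (xx N) - 1) / (exp (xx N) + 1) := by
      linear_combination (-((exp (xx N) - 1) / (exp (xx N) + 1))) * hI
    rw [e2]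
    field_simp
    ring
  have e3 : exp (xx N) ^ N = -(rho N : ℂ) := by
    rw [← Complex.exp_nat_mul]
    have e4 : (N : ℂ) * xx N = ((-(4 / Real.sqrt N) : ℝ) : ℂ) + (Real.pi : ℂ) * I := by
      unfold xx
      field_simp
    rw [e4, Complex.exp_add, Complex.exp_pi_mul_I]
    unfold rho
    push_cast
    ring
  rw [e1, mul_pow, e3]

end bounds

end Pool.Agent.helper37.CF
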