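import Mathlib
import Pool.Agent.helper37.CfDefs
import Pool.Agent.helper37.CfInv

/-!
Values of continued fractions through linear recurrences on pairs.
-/

namespace Pool.Agent.helper37.CF

open Complex

/-- The invariant region. -/
def WW (Z : ℂ) : Prop := ¬ NW Z.re Z.im

lemma WW_im {Z : ℂ} (h : WW Z) : 0 ≤ Z.im := by
  by_contra hc
  exact h (Or.inl (not_le.mp hc))

lemma WW_one : WW 1 := by
  intro h
  rcases h with h | ⟨h, _⟩
  · norm_num at h
  · norm_num at h

lemma WW_norm {Z : ℂ} (h : WW Z) : 1 / 32 ≤ ‖Z‖ := by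
  by_cases h1 : Z.re < 1 / 2
  · have h2 : ¬ (Z.im < hh (1 / 2 - Z.re)) := fun h3 => h (Or.inr ⟨h1, h3⟩)
    have h3 := hh_ge (1 / 2 - Z.re)
    have h4 : 1 / 32 ≤ Z.im := by linarith [not_lt.mp h2]
    exact h4.trans ((le_abs_self _).trans (abs_im_le_norm Z))
  · have h4 : 1 / 2 ≤ Z.re := not_lt.mp h1
    have h5 := (le_abs_self Z.re).trans (abs_re_le_norm Z)
    linarith

lemma WW_ne_zero {Z : ℂ} (h : WW Z) : Z ≠ 0 := by
  intro h0
  have := WW_norm h
  rw [h0, norm_zero] at this
  norm_num at this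

lemma WW_ne_neg_one {Z : ℂ} (h : WW Z) : Z + 1 ≠ 0 := by
  intro h0
  have h1 : Z = -1 := by linear_combination h0
  apply h
  right
  rw [h1]
  constructor
  · norm_num
  · have := hh_ge (1 / 2 - (-1 : ℂ).re)
    simp only [neg_im, one_im, neg_zero]
    linarith

lemma WW_den {η Z : ℂ} (hη : Par η.re η.im) (h : WW Z) : 1 - η * Z ≠ 0 := by
  intro h0
  have h1 : η * Z = 1 := by linear_combination -h0
  have h2 := congrArg Complex.re h1
  have h3 := congrArg Complex.im h1
  rw [mul_re, one_re] at h2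
  rw [mul_im, one_im] at h3
  have hY := WW_im h
  obtain ⟨p0, p1, q0, q1, pq⟩ := hη
  have hX : Z.re ≤ 0 := by
    by_contra hc
    push Not at hc
    have := mul_pos q0 hc
    have := mul_nonneg p0.le hY
    linarith
  have := mul_nonneg q0.le hY
  have := mul_nonneg p0.le (neg_nonneg.mpr hX)
  linarith

lemma WW_step {η Z : ℂ} (hη : Par η.re η.im) (h : WW Z) : WW ((Z + 1) / (1 - η * Z)) := by
  have hden := WW_den hη h
  set Z' : ℂ := (Z + 1) / (1 - η * Z) with hZ'
  have hη1 : (1 : ℂ) + η ≠ 0 := by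
    intro h0
    have := congrArg Complex.re h0
    simp at this
    linarith [hη.p0]
  have e1 : 1 + η * Z' = (1 + η) / (1 - η * Z) := by
    rw [hZ']
    field_simp
    ring
  have e2 : Z' - 1 = Z * (1 + η) / (1 - η * Z) := by
    rw [eq_div_iff hden, hZ', sub_mul, div_mul_cancel₀ _ hden]
    ring
  have hne : 1 + η * Z' ≠ 0 := by
    rw [e1]
    exact div_ne_zero hη1 hden
  have e3 : Z * (1 + η * Z') = Z' - 1 := by
    rw [e1, e2]
    ring
  have e4 : Z * (Complex.normSq (1 + η * Z') : ℂ) = (Z' - 1) * (starRingEnd ℂ) (1 + η * Z') := by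
    rw [← e3, ← Complex.mul_conj]
    ring
  have hNpos : 0 < Complex.normSq (1 + η * Z') := Complex.normSq_pos.mpr hne
  intro hN
  apply h
  refine nw_step hη hN (N := Complex.normSq (1 + η * Z')) ?_ hNpos ?_ ?_
  · rw [Complex.normSq_apply]
    simp only [add_re, one_re, mul_re, add_im, one_im, mul_im, zero_add]
    ring
  · have := congrArg Complex.re e4
    rw [Complex.re_mul_ofReal] at this
    rw [this]
    simp only [mul_re, sub_re, one_re, sub_im, one_im, conj_re, conj_im, add_re, add_im, mul_im]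
    ring
  · have := congrArg Complex.im e4
    rw [Complex.im_mul_ofReal] at this
    rw [this]
    simp only [mul_re, sub_re, one_re, sub_im, one_im, conj_re, conj_im, add_re, add_im, mul_im]
    ring

/-- The set of elements. -/
def EE : Set ℂ := {a | Par (-1 - 4 * a).re (-1 - 4 * a).im}

/-- The element belonging to the parameter `η`. -/
noncomputable def elt (η : ℂ) : ℂ := (-1 - η) / 4

lemma elt_mem {η : ℂ} (h : Par η.re η.im) : elt η ∈ EE := by
  have e : -1 - 4 * elt η = η := by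
    unfold elt
    ring
  show Par (-1 - 4 * elt η).re (-1 - 4 * elt η).im
  rw [e]
  exact h

/-- One step on pairs. -/
def pst (η : ℂ) (w : ℂ × ℂ) : ℂ × ℂ := (w.1 + w.2, w.2 - η * w.1)

/-- A word acting on pairs. -/
def run (l : List ℂ) (w : ℂ × ℂ) : ℂ × ℂ := l.foldr pst w

lemma stepA_elt {η Z : ℂ} (hη : Par η.re η.im) (h : WW Z) :
    stepA (elt η) (((1 / Z - 1) / 2 : ℂ) : OnePoint ℂ) =
      (((1 / ((Z + 1) / (1 - η * Z)) - 1) / 2 : ℂ) : OnePoint ℂ) := by
  have h0 : elt η ≠ 0 := by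
    intro h0
    have e : η = -1 := by
      have h1 : -1 - η = 0 := by
        have : (-1 - η) / 4 = 0 := h0
        have h4 : (4 : ℂ) ≠ 0 := by norm_num
        field_simp at this
        simpa using this
      linear_combination -h1
    have := hη.p0
    rw [e] at this
    norm_num at this
  have hZ := WW_ne_zero h
  have hZ1 := WW_ne_neg_one h
  have hden := WW_den hη h
  have h1 : (1 : ℂ) + (1 / Z - 1) / 2 ≠ 0 := by
    have e : (1 : ℂ) + (1 / Z - 1) / 2 = (Z + 1) / (2 * Z) := by
      field_simp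
      ring
    rw [e]
    exact div_ne_zero hZ1 (mul_ne_zero two_ne_zero hZ)
  unfold stepA
  rw [if_neg h0, OnePoint.elim_some, if_neg h1]
  congr 1
  unfold elt
  have e : (1 : ℂ) + (1 / Z - 1) / 2 = (Z + 1) / (2 * Z) := by
    field_simp
    ring
  rw [e, one_div_div, div_div_eq_mul_div, eq_div_iff two_ne_zero, eq_sub_iff_add_eq]
  have e5 : (-1 - η) / 4 * (2 * Z) / (Z + 1) * 2 + 1 = (1 - η * Z) / (Z + 1) := by
    rw [eq_div_iff hZ1, add_mul]
    have e6 : (-1 - η) / 4 * (2 * Z) / (Z + 1) * 2 * (Z + 1) = (-1 - η) * Z := by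
      have : (-1 - η) / 4 * (2 * Z) / (Z + 1) * 2 * (Z + 1) =
          (-1 - η) / 4 * (2 * Z) * 2 * ((Z + 1) / (Z + 1)) := by ring
      rw [this, div_self hZ1]
      ring
    rw [e6]
    ring
  exact e5

lemma run_spec (l : List ℂ) (hl : ∀ η ∈ l, Par η.re η.im) :
    (run l (1, 1)).1 ≠ 0 ∧ (run l (1, 1)).2 ≠ 0 ∧
      WW ((run l (1, 1)).1 / (run l (1, 1)).2) ∧
      valueA (l.map elt) = (((1 / ((run l (1, 1)).1 / (run l (1, 1)).2) - 1) / 2 : ℂ) :
        OnePoint ℂ) := by
  induction l with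
  | nil =>
    refine ⟨by simp [run], by simp [run], by simpa [run] using WW_one, by simp [run, valueA]⟩
  | cons η l ih =>
    have hη := hl η (by simp)
    obtain ⟨h1, h2, h3, h4⟩ := ih (fun x hx => hl x (by simp [hx]))
    have e : run (η :: l) (1, 1) = pst η (run l (1, 1)) := rfl
    set w := run l (1, 1) with hw
    have hZ1 := WW_ne_neg_one h3
    have hden := WW_den hη h3
    have hs := WW_step hη h3
    have e1 : (pst η w).1 = (w.1 / w.2 + 1) * w.2 := by
      unfold pst
      field_simp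
    have e2 : (pst η w).2 = (1 - η * (w.1 / w.2)) * w.2 := by
      unfold pst
      field_simp
    have e3 : (pst η w).1 / (pst η w).2 = (w.1 / w.2 + 1) / (1 - η * (w.1 / w.2)) := by
      rw [e1, e2, mul_div_mul_right _ _ h2]
    rw [e]
    refine ⟨?_, ?_, ?_, ?_⟩
    · rw [e1]
      exact mul_ne_zero hZ1 h2
    · rw [e2]
      exact mul_ne_zero hden h2
    · rw [e3]
      exact hs
    · rw [e3, ← stepA_elt hη h3, ← h4]
      rfl

/-- The value set is bounded. -/
theorem boundedValues : BoundedValuesA EE := by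
  refine ⟨33 / 2, fun l _ hl => ?_⟩
  have e : l = (l.map (fun a => -1 - 4 * a)).map elt := by
    rw [List.map_map]
    conv_lhs => rw [← List.map_id l]
    apply List.map_congr_left
    intro a _
    simp only [id, Function.comp, elt]
    ring
  obtain ⟨h1, h2, h3, h4⟩ := run_spec (l.map (fun a => -1 - 4 * a)) (by
    intro η hη
    rw [List.mem_map] at hη
    obtain ⟨a, ha, rfl⟩ := hη
    exact hl a ha)
  rw [← e] at h4
  refine ⟨_, h4, ?_⟩
  have h5 := WW_norm h3
  set Z := (run (List.map (fun a => -1 - 4 * a) l) (1, 1)).1 /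
    (run (List.map (fun a => -1 - 4 * a) l) (1, 1)).2
  have h6 : ‖1 / Z‖ ≤ 32 := by
    rw [norm_div, norm_one]
    rw [div_le_iff₀ (by linarith)]
    linarith
  rw [norm_div]
  have h7 : ‖1 / Z - 1‖ ≤ 33 := by
    calc ‖1 / Z - 1‖ ≤ ‖1 / Z‖ + ‖(1 : ℂ)‖ := norm_sub_le _ _
      _ ≤ 32 + 1 := by
        rw [norm_one]
        linarith
      _ = 33 := by norm_num
  have h8 : ‖(2 : ℂ)‖ = 2 := by simp
  rw [h8]
  linarith

end Pool.Agent.helper37.CF
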