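import Mathlib
import Pool.Agent.helper37.CfRun
import Pool.Agent.helper37.CfPar
import Pool.Agent.helper40.InfWord

/-!
A divergent continued fraction of type A with elements in `EE`.
-/

namespace Pool.Agent.helper37.CF

open Complex Filter Topology
open Pool.Agent.helper40 (wordUpTo infWord)

lemma run_append (l₁ l₂ : List ℂ) (w : ℂ × ℂ) : run (l₁ ++ l₂) w = run l₁ (run l₂ w) := by
  unfold run
  rw [List.foldr_append]

/-- Powers of one letter, diagonalised. -/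
lemma run_rep (t : ℂ) (n : ℕ) (u v : ℂ) :
    (run (List.replicate n (t ^ 2)) (u, v)).2 + I * t * (run (List.replicate n (t ^ 2)) (u, v)).1 =
        (1 + I * t) ^ n * (v + I * t * u) ∧
      (run (List.replicate n (t ^ 2)) (u, v)).2 - I * t *
        (run (List.replicate n (t ^ 2)) (u, v)).1 = (1 - I * t) ^ n * (v - I * t * u) := by
  induction n with
  | zero => simp [run]
  | succ n ih =>
    obtain ⟨h1, h2⟩ := ih
    have e : run (List.replicate (n + 1) (t ^ 2)) (u, v) =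
        pst (t ^ 2) (run (List.replicate n (t ^ 2)) (u, v)) := rfl
    rw [e]
    set w := run (List.replicate n (t ^ 2)) (u, v)
    unfold pst
    simp only
    have hI := Complex.I_sq
    constructor
    · rw [pow_succ]
      linear_combination (1 + I * t) * h1 - t ^ 2 * w.1 * hI
    · rw [pow_succ]
      linear_combination (1 - I * t) * h2 - t ^ 2 * w.1 * hI

lemma run_block {N : ℕ} (hN : 8192 ≤ N) : ∃ G : ℂ, G ≠ 0 ∧ ∀ u v : ℂ,
    run (List.replicate N (tt N ^ 2)) (u, v) =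
      (G * ((ta N : ℂ) * u + I / tt N * v), G * ((ta N : ℂ) * v - I * tt N * u)) := by
  have ht := tt_ne hN
  have hp := tt_pow hN
  have hr := rho_eq N
  have ht0 := ta_nonneg N
  set t := tt N with htdef
  set X := (1 - I * t) ^ N with hX
  have hrC : (1 - (ta N : ℂ)) = (rho N : ℂ) * (1 + (ta N : ℂ)) := by exact_mod_cast hr
  have h1 : (1 + (ta N : ℂ)) ≠ 0 := by
    have : (1 + ta N : ℝ) ≠ 0 := by linarith
    exact_mod_cast this
  have hI0 := Complex.I_ne_zero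
  have hI := Complex.I_sq
  have hX0 : X ≠ 0 := by
    rw [hX]
    apply pow_ne_zero
    intro h0
    have h2 : I * t = 1 := by linear_combination -h0
    have h3 : ‖t‖ = 1 := by
      have := congrArg norm h2
      rwa [norm_mul, Complex.norm_I, one_mul, norm_one] at this
    have h4 := norm_tt_le hN
    rw [← htdef, h3] at h4
    have hNr : (8192 : ℝ) ≤ N := by exact_mod_cast hN
    rw [le_div_iff₀ (by linarith)] at h4
    linarith
  refine ⟨X / (1 + (ta N : ℂ)), div_ne_zero hX0 h1, fun u v => ?_⟩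
  obtain ⟨e1, e2⟩ := run_rep t N u v
  rw [← hX] at e2
  rw [hp] at e1
  set w := run (List.replicate N (t ^ 2)) (u, v) with hw
  have hr2 : (rho N : ℂ) = (1 - (ta N : ℂ)) / (1 + (ta N : ℂ)) := by
    rw [hrC]
    field_simp
  rw [hr2] at e1
  have e3 : (1 + (ta N : ℂ)) * (w.2 + I * t * w.1) = -(1 - (ta N : ℂ)) * X * (v + I * t * u) := by
    rw [e1]
    field_simp
  apply Prod.ext
  · simp only
    rw [div_mul_eq_mul_div, eq_div_iff h1]
    have e4 : 2 * I * t * ((1 + (ta N : ℂ)) * w.1) =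
        2 * I * t * (X * ((ta N : ℂ) * u + I / t * v)) := by
      have e5 : I * t * (I / t * v) = -v := by
        field_simp
        linear_combination v * hI
      linear_combination e3 - (1 + (ta N : ℂ)) * e2 - 2 * X * e5
    have h2 : 2 * I * t ≠ 0 := mul_ne_zero (mul_ne_zero two_ne_zero hI0) ht
    rw [mul_comm w.1]
    exact mul_left_cancel₀ h2 e4
  · simp only
    rw [div_mul_eq_mul_div, eq_div_iff h1]
    linear_combination (1 / 2) * e3 + (1 / 2) * (1 + (ta N : ℂ)) * e2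

/-- The length of the block. -/
noncomputable def Nn (D : ℂ) : ℕ := ⌈4 * ‖D‖⌉₊

/-- The scales. -/
noncomputable def DD : ℕ → ℂ
  | 0 => 8192
  | m + 1 => 1 / ((tt (Nn (DD m))) ^ 2 * DD m)

lemma Nn_ge {D : ℂ} (hD : 8192 ≤ ‖D‖) : 8192 ≤ Nn D := by
  have h1 : (4 * ‖D‖ : ℝ) ≤ Nn D := Nat.le_ceil _
  have h2 : (8192 : ℝ) ≤ Nn D := by linarith
  exact_mod_cast h2

lemma tD_bounds {D : ℂ} (hD : 8192 ≤ ‖D‖) :
    1 / 4 ≤ ‖tt (Nn D)‖ * ‖D‖ ∧ ‖tt (Nn D)‖ * ‖D‖ ≤ 1 / 2 := by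
  have hN := Nn_ge hD
  have h1 : (4 * ‖D‖ : ℝ) ≤ Nn D := Nat.le_ceil _
  have h2 : (Nn D : ℝ) < 4 * ‖D‖ + 1 := Nat.ceil_lt_add_one (by positivity)
  have h3 := norm_tt_ge hN
  have h4 := norm_tt_le hN
  have hNr : (8192 : ℝ) ≤ Nn D := by exact_mod_cast hN
  have hpos : (0 : ℝ) < Nn D := by linarith
  constructor
  · have h5 : 1.5 / (Nn D : ℝ) * ‖D‖ ≤ ‖tt (Nn D)‖ * ‖D‖ :=
      mul_le_mul_of_nonneg_right h3 (norm_nonneg _)
    refine le_trans ?_ h5
    rw [div_mul_eq_mul_div, le_div_iff₀ hpos]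
    linarith
  · have h5 : ‖tt (Nn D)‖ * ‖D‖ ≤ 1.7 / (Nn D : ℝ) * ‖D‖ :=
      mul_le_mul_of_nonneg_right h4 (norm_nonneg _)
    refine h5.trans ?_
    rw [div_mul_eq_mul_div, div_le_iff₀ hpos]
    linarith

lemma norm_DD (m : ℕ) : 8192 * 4 ^ m ≤ ‖DD m‖ := by
  induction m with
  | zero =>
    simp [DD]
  | succ m ih =>
    have h0 : (1 : ℝ) ≤ 4 ^ m := one_le_pow₀ (by norm_num)
    have hD : 8192 ≤ ‖DD m‖ := by nlinarith
    obtain ⟨h1, h2⟩ := tD_bounds hD
    have ht := tt_ne (Nn_ge hD)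
    have htp : 0 < ‖tt (Nn (DD m))‖ := norm_pos_iff.mpr ht
    have hDp : 0 < ‖DD m‖ := by linarith
    have e : ‖DD (m + 1)‖ = 1 / (‖tt (Nn (DD m))‖ ^ 2 * ‖DD m‖) := by
      show ‖1 / ((tt (Nn (DD m))) ^ 2 * DD m)‖ = _
      rw [norm_div, norm_one, norm_mul, norm_pow]
    rw [e, le_div_iff₀ (by positivity)]
    have h3 : (‖tt (Nn (DD m))‖ * ‖DD m‖) ^ 2 ≤ (1 / 2) ^ 2 :=
      pow_le_pow_left₀ (by positivity) h2 2
    have h4 : ‖tt (Nn (DD m))‖ ^ 2 * ‖DD m‖ * ‖DD m‖ ≤ 1 / 4 := by nlinarith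
    have h5 : 8192 * 4 ^ m * (‖tt (Nn (DD m))‖ ^ 2 * ‖DD m‖) ≤
        ‖DD m‖ * (‖tt (Nn (DD m))‖ ^ 2 * ‖DD m‖) :=
      mul_le_mul_of_nonneg_right ih (by positivity)
    calc (8192 : ℝ) * 4 ^ (m + 1) * (‖tt (Nn (DD m))‖ ^ 2 * ‖DD m‖)
        = 4 * (8192 * 4 ^ m * (‖tt (Nn (DD m))‖ ^ 2 * ‖DD m‖)) := by ring
      _ ≤ 4 * (‖DD m‖ * (‖tt (Nn (DD m))‖ ^ 2 * ‖DD m‖)) := by linarith
      _ ≤ 1 := by nlinarith

lemma DD_ge (m : ℕ) : 8192 ≤ ‖DD m‖ := by
  have h0 : (1 : ℝ) ≤ 4 ^ m := one_le_pow₀ (by norm_num)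
  have := norm_DD m
  nlinarith

/-- The `m`-th letter parameter and the `m`-th loss. -/
noncomputable def tm (m : ℕ) : ℂ := tt (Nn (DD m))
noncomputable def sm (m : ℕ) : ℝ := ta (Nn (DD m))

lemma DD_succ (m : ℕ) : DD (m + 1) * (tm m ^ 2 * DD m) = 1 := by
  have ht : tm m ≠ 0 := tt_ne (Nn_ge (DD_ge m))
  have hD : DD m ≠ 0 := by
    intro h
    have := DD_ge m
    rw [h, norm_zero] at this
    norm_num at this
  show 1 / ((tt (Nn (DD m))) ^ 2 * DD m) * (tm m ^ 2 * DD m) = 1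
  unfold tm at *
  field_simp

lemma sm_nonneg (m : ℕ) : 0 ≤ sm m := ta_nonneg _

lemma sm_le (m : ℕ) : 4 * sm m ≤ (1 / 2) ^ m / 8 := by
  have h1 := ta_le (Nn (DD m))
  have h2 : (4 * ‖DD m‖ : ℝ) ≤ Nn (DD m) := Nat.le_ceil _
  have h3 := norm_DD m
  have h4 : (128 * 2 ^ m : ℝ) ≤ Real.sqrt (Nn (DD m)) := by
    apply Real.le_sqrt_of_sq_le
    have e : (128 * 2 ^ m : ℝ) ^ 2 = 16384 * 4 ^ m := by
      rw [mul_pow, ← pow_mul, mul_comm m 2, pow_mul]
      norm_num
    rw [e]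
    have : (0 : ℝ) < 4 ^ m := by positivity
    linarith
  have h5 : 4 / Real.sqrt (Nn (DD m)) ≤ 4 / (128 * 2 ^ m) := by
    apply div_le_div_of_nonneg_left (by norm_num) (by positivity) h4
  have h6 : (4 : ℝ) / (128 * 2 ^ m) = (1 / 2) ^ m / 32 := by
    rw [div_pow, one_pow]
    field_simp
    norm_num
  unfold sm
  linarith

/-- The blocks. -/
noncomputable def BB (m : ℕ) : List ℂ := List.replicate (Nn (DD m)) (tm m ^ 2)

lemma BB_ne (m : ℕ) : BB m ≠ [] := by
  unfold BB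
  have := Nn_ge (DD_ge m)
  intro h
  rw [List.replicate_eq_nil_iff] at h
  omega

lemma run_BB (m : ℕ) : ∃ G : ℂ, G ≠ 0 ∧ ∀ u v : ℂ,
    run (BB m) (u, v) =
      (G * ((sm m : ℂ) * u + I / tm m * v), G * ((sm m : ℂ) * v - I * tm m * u)) :=
  run_block (Nn_ge (DD_ge m))

lemma tm_ne (m : ℕ) : tm m ≠ 0 := tt_ne (Nn_ge (DD_ge m))

lemma DD_ne (m : ℕ) : DD m ≠ 0 := by
  intro h
  have := DD_ge m
  rw [h, norm_zero] at this
  norm_num at this

lemma tmD (m : ℕ) : 1 / 4 ≤ ‖tm m * DD m‖ ∧ ‖tm m * DD m‖ ≤ 1 / 2 := by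
  rw [norm_mul]
  exact tD_bounds (DD_ge m)

/-- The main recursion. -/
lemma main_rec (m : ℕ) : ∃ a b c d γ : ℂ, γ ≠ 0 ∧
    ‖a‖ ≤ 2 - (1 / 2) ^ m ∧ ‖b‖ ≤ 2 - (1 / 2) ^ m ∧ ‖c‖ ≤ 2 - (1 / 2) ^ m ∧
    ‖d‖ ≤ 2 - (1 / 2) ^ m ∧ 1 / 2 + (1 / 2) ^ m / 2 ≤ ‖a * d - b * c‖ ∧
    ∀ u v : ℂ, run (wordUpTo BB m) (u, v) =
      (γ * (8192 * (a * u / DD m + b * v)), γ * (c * u / DD m + d * v)) := by
  induction m with
  | zero =>
    refine ⟨1, 0, 0, 1, 1, one_ne_zero, by norm_num, by norm_num, by norm_num, by norm_num,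
      by norm_num, fun u v => ?_⟩
    simp [wordUpTo, run, DD]
    ring
  | succ m ih =>
    obtain ⟨a, b, c, d, γ, hγ, ha, hb, hc, hd, hdet, hrun⟩ := ih
    obtain ⟨G, hG, hblock⟩ := run_BB m
    obtain ⟨hy1, hy2⟩ := tmD m
    have ht := tm_ne m
    have hD := DD_ne m
    have hD' := DD_ne (m + 1)
    have hDD := DD_succ m
    have hs0 := sm_nonneg m
    have hs1 := sm_le m
    set D := DD m with hDdef
    set D' := DD (m + 1) with hD'def
    set t := tm m with htdef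
    set s : ℝ := sm m with hsdef
    set y := t * D with hy
    have hyne : y ≠ 0 := mul_ne_zero ht hD
    have hynorm : 0 < ‖y‖ := norm_pos_iff.mpr hyne
    have hI := Complex.I_sq
    have hI0 := Complex.I_ne_zero
    have hpow : (0 : ℝ) < (1 / 2) ^ m := by positivity
    have hpow1 : ((1 : ℝ) / 2) ^ m ≤ 1 := pow_le_one₀ (by norm_num) (by norm_num)
    have hsn : ‖(s : ℂ)‖ = s := by
      rw [Complex.norm_real, Real.norm_eq_abs, abs_of_nonneg hs0]
    -- norm bounds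
    have hN1 : ∀ z w : ℂ, ‖z‖ ≤ 2 - (1 / 2) ^ m → ‖w‖ ≤ 2 - (1 / 2) ^ m →
        ‖-w - I * (s / y) * z‖ ≤ 2 - (1 / 2) ^ (m + 1) := by
      intro z w hz hw
      have h1 : ‖-w - I * (s / y) * z‖ ≤ ‖w‖ + s / ‖y‖ * ‖z‖ := by
        refine (norm_sub_le _ _).trans ?_
        rw [norm_neg, norm_mul, norm_mul, norm_div, Complex.norm_I, one_mul, hsn]
      have h2 : s / ‖y‖ ≤ 4 * s := by
        rw [div_le_iff₀ hynorm]
        nlinarith
      have h3 : s / ‖y‖ * ‖z‖ ≤ (1 / 2) ^ m / 8 * 2 := by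
        apply mul_le_mul (h2.trans hs1) (by linarith) (norm_nonneg _) (by positivity)
      rw [pow_succ]
      linarith
    have hN2 : ∀ z w : ℂ, ‖z‖ ≤ 2 - (1 / 2) ^ m → ‖w‖ ≤ 2 - (1 / 2) ^ m →
        ‖z - I * (s * y) * w‖ ≤ 2 - (1 / 2) ^ (m + 1) := by
      intro z w hz hw
      have h1 : ‖z - I * (s * y) * w‖ ≤ ‖z‖ + s * ‖y‖ * ‖w‖ := by
        refine (norm_sub_le _ _).trans ?_
        rw [norm_mul, norm_mul, norm_mul, Complex.norm_I, one_mul, hsn]
      have h2 : s * ‖y‖ ≤ 4 * s := by nlinarith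
      have h3 : s * ‖y‖ * ‖w‖ ≤ (1 / 2) ^ m / 8 * 2 := by
        apply mul_le_mul (h2.trans hs1) (by linarith) (norm_nonneg _) (by positivity)
      rw [pow_succ]
      linarith
    refine ⟨-b - I * (s / y) * a, a - I * (s * y) * b, -d - I * (s / y) * c,
      c - I * (s * y) * d, γ * (G * (I / y)), ?_, hN1 a b ha hb, hN2 a b ha hb, hN1 c d hc hd,
      hN2 c d hc hd, ?_, ?_⟩
    · exact mul_ne_zero hγ (mul_ne_zero hG (div_ne_zero hI0 hyne))
    · have e : (-b - I * (s / y) * a) * (c - I * (s * y) * d) -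
          (a - I * (s * y) * b) * (-d - I * (s / y) * c) = (1 - (s : ℂ) ^ 2) * (a * d - b * c) := by
        field_simp
        linear_combination ((s : ℂ) ^ 2 * y * a * d - s ^ 2 * y * b * c) * hI
      rw [e, norm_mul]
      have h1 : 1 - s ^ 2 ≤ ‖1 - (s : ℂ) ^ 2‖ := by
        have := norm_sub_norm_le (1 : ℂ) ((s : ℂ) ^ 2)
        rw [norm_one, norm_pow, hsn] at this
        exact this
      have h2 : s ≤ (1 / 2) ^ m / 32 := by linarith
      have h3 : s ^ 2 ≤ (1 / 2) ^ m / 32 := by nlinarith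
      have h4 : (1 - s ^ 2) * (1 / 2 + (1 / 2) ^ m / 2) ≤ ‖1 - (s : ℂ) ^ 2‖ * ‖a * d - b * c‖ := by
        apply mul_le_mul h1 hdet (by positivity) (norm_nonneg _)
      refine le_trans ?_ h4
      rw [pow_succ]
      nlinarith
    · intro u v
      have e1 : wordUpTo BB (m + 1) = wordUpTo BB m ++ BB m := rfl
      rw [e1, run_append, hblock, hrun]
      have hDinv : 1 / D' = t ^ 2 * D := by
        rw [div_eq_iff hD']
        linear_combination -hDD
      have e2 : ∀ z : ℂ, z * u / D' = z * u * (t ^ 2 * D) := by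
        intro z
        rw [← hDinv]
        ring
      rw [e2, e2, hy]
      apply Prod.ext
      · simp only
        field_simp
        linear_combination (s * t * u * a + s * t * D * v * b) * hI
      · simp only
        field_simp
        linear_combination (s * t * u * c + s * t * D * v * d) * hI

/-- The values at the ends of the blocks. -/
noncomputable def fm (m : ℕ) : ℂ :=
  (1 / ((run (wordUpTo BB m) (1, 1)).1 / (run (wordUpTo BB m) (1, 1)).2) - 1) / 2

lemma par_tm (m : ℕ) : Par (tm m ^ 2).re (tm m ^ 2).im := par_tt (Nn_ge (DD_ge m))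

lemma mem_word {m : ℕ} {η : ℂ} (h : η ∈ wordUpTo BB m) : Par η.re η.im := by
  obtain ⟨k, hk⟩ := Pool.Agent.helper40.mem_wordUpTo BB h
  unfold BB at hk
  rw [List.mem_replicate] at hk
  rw [hk.2]
  exact par_tm k

lemma fm_gap (m : ℕ) : 1 / 2000000 ≤ ‖fm m - fm (m + 1)‖ := by
  obtain ⟨a, b, c, d, γ, hγ, ha, hb, hc, hd, hdet, hrun⟩ := main_rec m
  obtain ⟨G, hG, hblock⟩ := run_BB m
  obtain ⟨hy1, hy2⟩ := tmD m
  have ht := tm_ne m
  have hD := DD_ne m
  have hs0 := sm_nonneg m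
  have hs1 := sm_le m
  obtain ⟨n1, n2, -, -⟩ := run_spec (wordUpTo BB m) (fun η h => mem_word h)
  obtain ⟨n1', n2', -, -⟩ := run_spec (wordUpTo BB (m + 1)) (fun η h => mem_word h)
  have hw : run (wordUpTo BB m) (1, 1) =
      (γ * (8192 * (a / DD m + b)), γ * (c / DD m + d)) := by
    rw [hrun]
    simp
  have e1 : wordUpTo BB (m + 1) = wordUpTo BB m ++ BB m := rfl
  have hw' : run (wordUpTo BB (m + 1)) (1, 1) =
      (γ * (8192 * (a * (G * ((sm m : ℂ) + I / tm m)) / DD m +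
          b * (G * ((sm m : ℂ) - I * tm m)))),
        γ * (c * (G * ((sm m : ℂ) + I / tm m)) / DD m + d * (G * ((sm m : ℂ) - I * tm m)))) := by
    rw [e1, run_append, hblock, hrun]
    simp
  have hNN := norm_tt_le (Nn_ge (DD_ge m))
  have hNNr : (8192 : ℝ) ≤ Nn (DD m) := by exact_mod_cast Nn_ge (DD_ge m)
  have htn : ‖tm m‖ ≤ 1 / 4000 := by
    refine hNN.trans ?_
    rw [div_le_iff₀ (by linarith)]
    linarith
  have hDn := DD_ge m
  unfold fm
  rw [hw] at n1 n2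
  rw [hw'] at n1' n2'
  rw [hw, hw']
  simp only at n1 n2 n1' n2' ⊢
  set D := DD m with hDdef
  set t := tm m with htdef
  set s : ℝ := sm m with hsdef
  have hI := Complex.I_sq
  have hI0 := Complex.I_ne_zero
  have hpow : (0 : ℝ) < (1 / 2) ^ m := by positivity
  have hpow1 : ((1 : ℝ) / 2) ^ m ≤ 1 := pow_le_one₀ (by norm_num) (by norm_num)
  have hsn : ‖(s : ℂ)‖ = s := by
    rw [Complex.norm_real, Real.norm_eq_abs, abs_of_nonneg hs0]
  set u := γ * (8192 * (a / D + b)) with hu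
  set v := γ * (c / D + d) with hv
  set u' := γ * (8192 * (a * (G * ((s : ℂ) + I / t)) / D + b * (G * ((s : ℂ) - I * t)))) with hu'
  set v' := γ * (c * (G * ((s : ℂ) + I / t)) / D + d * (G * ((s : ℂ) - I * t))) with hv'
  have e2 : (1 / (u / v) - 1) / 2 - (1 / (u' / v') - 1) / 2 = (v * u' - u * v') / (2 * (u * u')) := by
    rw [one_div_div, one_div_div]
    field_simp
    ring
  have e3 : v * u' - u * v' = γ ^ 2 * G * 8192 * ((a * d - b * c) * ((1 + t ^ 2) * (I / (t * D)))) := by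
    rw [hu, hv, hu', hv']
    field_simp
    ring
  have e4 : u' = γ * G * 8192 * (1 / (t * D)) * (a * (s * t + I) + b * (t * D) * (s - I * t)) := by
    rw [hu']
    field_simp
  have htD : t * D ≠ 0 := mul_ne_zero ht hD
  have h1 : (a / D + b) ≠ 0 := by
    intro h
    apply n1
    rw [hu, h]
    ring
  have h2 : a * (s * t + I) + b * (t * D) * (s - I * t) ≠ 0 := by
    intro h
    apply n1'
    rw [e4, h]
    ring
  have e5 : (v * u' - u * v') / (2 * (u * u')) =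
      ((a * d - b * c) * ((1 + t ^ 2) * I)) /
        (2 * 8192 * ((a / D + b) * (a * (s * t + I) + b * (t * D) * (s - I * t)))) := by
    rw [e3, e4, hu]
    rw [div_eq_div_iff (by
      refine mul_ne_zero two_ne_zero (mul_ne_zero (mul_ne_zero hγ (mul_ne_zero (by norm_num) h1))
        (mul_ne_zero (mul_ne_zero (mul_ne_zero (mul_ne_zero hγ hG) (by norm_num))
          (div_ne_zero one_ne_zero htD)) h2)) ) (by
      refine mul_ne_zero (by norm_num) (mul_ne_zero h1 h2))]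
    ring
  have hden : 2 * 8192 * ((a / D + b) * (a * (s * t + I) + b * (t * D) * (s - I * t))) ≠ 0 :=
    mul_ne_zero (by norm_num) (mul_ne_zero h1 h2)
  rw [e2, e5, norm_div, le_div_iff₀ (norm_pos_iff.mpr hden)]
  have hsle : s ≤ 1 / 32 := by linarith
  have ha2 : ‖a‖ ≤ 2 := by linarith
  have hb2 : ‖b‖ ≤ 2 := by linarith
  have b1 : ‖a / D + b‖ ≤ 3 := by
    refine (norm_add_le _ _).trans ?_
    have : ‖a / D‖ ≤ 1 := by
      rw [norm_div, div_le_one (by linarith)]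
      linarith
    linarith
  have b2 : ‖a * (s * t + I) + b * (t * D) * (s - I * t)‖ ≤ 6 := by
    refine (norm_add_le _ _).trans ?_
    have c1 : ‖(s : ℂ) * t + I‖ ≤ 2 := by
      refine (norm_add_le _ _).trans ?_
      rw [norm_mul, hsn, Complex.norm_I]
      nlinarith [norm_nonneg t]
    have c2 : ‖(s : ℂ) - I * t‖ ≤ 1 := by
      refine (norm_sub_le _ _).trans ?_
      rw [norm_mul, hsn, Complex.norm_I]
      linarith
    have c3 : ‖a * (s * t + I)‖ ≤ 2 * 2 := by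
      rw [norm_mul]
      exact mul_le_mul ha2 c1 (norm_nonneg _) (by norm_num)
    have c4 : ‖b * (t * D) * (s - I * t)‖ ≤ 2 * (1 / 2) * 1 := by
      rw [norm_mul, norm_mul]
      exact mul_le_mul (mul_le_mul hb2 hy2 (norm_nonneg _) (by norm_num)) c2 (norm_nonneg _)
        (by norm_num)
    linarith
  have b3 : ‖2 * 8192 * ((a / D + b) * (a * (s * t + I) + b * (t * D) * (s - I * t)))‖ ≤
      16384 * (3 * 6) := by
    rw [norm_mul, norm_mul (a / D + b)]
    have : ‖(2 * 8192 : ℂ)‖ = 16384 := by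
      rw [norm_mul]
      norm_num
    rw [this]
    apply mul_le_mul_of_nonneg_left _ (by norm_num)
    exact mul_le_mul b1 b2 (norm_nonneg _) (by norm_num)
  have b4 : 1 / 2 * (1 / 2) ≤ ‖(a * d - b * c) * ((1 + t ^ 2) * I)‖ := by
    rw [norm_mul, norm_mul (1 + t ^ 2), Complex.norm_I, mul_one]
    have c1 : 1 / 2 ≤ ‖1 + t ^ 2‖ := by
      have := norm_sub_norm_le (1 : ℂ) (-(t ^ 2))
      rw [sub_neg_eq_add, norm_one, norm_neg, norm_pow] at this
      have : ‖t‖ ^ 2 ≤ 1 / 2 := by nlinarith [norm_nonneg t]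
      linarith
    exact mul_le_mul (by linarith) c1 (by norm_num) (norm_nonneg _)
  linarith

lemma wordUpTo_map (m : ℕ) :
    wordUpTo (fun n => (BB n).map elt) m = (wordUpTo BB m).map elt := by
  induction m with
  | zero => rfl
  | succ m ih =>
    show wordUpTo (fun n => (BB n).map elt) m ++ (BB m).map elt = (wordUpTo BB m ++ BB m).map elt
    rw [ih, List.map_append]

/-- `EE` is not a convergence set. -/
theorem not_convergenceSet : ¬ ConvergenceSetA EE := by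
  intro hconv
  set B : ℕ → List ℂ := fun n => (BB n).map elt with hB
  have hBne : ∀ n, B n ≠ [] := by
    intro n h
    rw [hB] at h
    simp only [List.map_eq_nil_iff] at h
    exact BB_ne n h
  obtain ⟨L, hL⟩ := hconv (infWord B 0) (by
    intro n
    obtain ⟨k, hk⟩ := Pool.Agent.helper40.infWord_mem B hBne 0 n
    rw [hB] at hk
    simp only [List.mem_map] at hk
    obtain ⟨η, hη, he⟩ := hk
    rw [hB, ← he]
    unfold BB at hη
    rw [List.mem_replicate] at hη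
    rw [hη.2]
    exact elt_mem (par_tm k))
  have hlen := Pool.Agent.helper40.length_wordUpTo_tendsto B hBne
  have h1 := hL.comp hlen
  have h2 : (fun n : ℕ => valueA (List.ofFn (fun i : Fin n => infWord B 0 i))) ∘
      (fun n => (wordUpTo B n).length) = fun m => ((fm m : ℂ) : OnePoint ℂ) := by
    funext m
    simp only [Function.comp]
    rw [Pool.Agent.helper40.ofFn_infWord B hBne 0 m, hB, wordUpTo_map]
    obtain ⟨-, -, -, h⟩ := run_spec (wordUpTo BB m) (fun η h => mem_word h)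
    rw [h]
    rfl
  rw [h2] at h1
  have h3 : Tendsto fm atTop (𝓝 L) := by
    rw [OnePoint.isOpenEmbedding_coe.isInducing.tendsto_nhds_iff]
    exact h1
  have h4 : Tendsto (fun m => fm m - fm (m + 1)) atTop (𝓝 (L - L)) :=
    h3.sub (h3.comp (tendsto_add_atTop_nat 1))
  rw [sub_self] at h4
  have h5 := h4.norm
  rw [norm_zero] at h5
  have h6 : (1 / 2000000 : ℝ) ≤ 0 := ge_of_tendsto' h5 fm_gap
  norm_num at h6

end Pool.Agent.helper37.CF
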