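import Pool.Agent.helper37.HexH

set_option autoImplicit false

namespace Pool.Agent.helper37

open Filter Topology MeasureTheory
open scoped SchwartzMap FourierTransform BoundedContinuousFunction RealInnerProductSpace ComplexConjugate

theorem loeschian_mod : ∀ a b : ZMod 24, (a ^ 2 + a * b + b ^ 2).val ∈ resSet ∧
    (a ^ 2 + a * b + b ^ 2).val ≠ 2 := by
  decide +kernel

theorem loeschian_nat (j k : ℤ) : ∃ n : ℕ, (n : ℤ) = j ^ 2 + j * k + k ^ 2 ∧
    n % 24 ∈ resSet ∧ n % 24 ≠ 2 := by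
  have hnn : 0 ≤ j ^ 2 + j * k + k ^ 2 := by nlinarith [sq_nonneg (j + k), sq_nonneg j, sq_nonneg k]
  obtain ⟨n, hn⟩ := Int.eq_ofNat_of_zero_le hnn
  refine ⟨n, hn.symm, ?_⟩
  have h1 : ((n : ℕ) : ZMod 24) = (j : ZMod 24) ^ 2 + (j : ZMod 24) * (k : ZMod 24) +
      (k : ZMod 24) ^ 2 := by
    have := congrArg (fun x : ℤ => (x : ZMod 24)) hn
    push_cast at this
    exact this.symm
  have h2 := loeschian_mod (j : ZMod 24) (k : ZMod 24)
  rw [← h1, ZMod.val_natCast] at h2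
  exact h2

/-- complex conjugate of a Schwartz function -/
noncomputable def conjS (F : 𝓢(V2, ℂ)) : 𝓢(V2, ℂ) :=
  SchwartzMap.postcompCLM (𝕜 := ℝ) (Complex.conjCLE : ℂ →L[ℝ] ℂ) F

theorem conjS_apply (F : 𝓢(V2, ℂ)) (v : V2) : conjS F v = conj (F v) := rfl

theorem fourier_conjS (F : 𝓢(V2, ℂ)) (ξ : V2) : (𝓕 (conjS F)) ξ = conj ((𝓕 F) (-ξ)) := by
  rw [SchwartzMap.fourier_coe, SchwartzMap.fourier_coe, Real.fourier_eq', Real.fourier_eq',
    ← integral_conj]
  apply integral_congr_ae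
  refine Eventually.of_forall fun v => ?_
  simp only [smul_eq_mul, map_mul, conjS_apply]
  congr 1
  rw [← Complex.exp_conj]
  congr 1
  rw [map_mul, Complex.conj_I, Complex.conj_ofReal, inner_neg_right]
  push_cast
  ring

theorem main_theorem :
    ∃ f : SchwartzMap (EuclideanSpace ℝ (Fin 2)) ℂ,
      (∀ x y : EuclideanSpace ℝ (Fin 2), ‖x‖ = ‖y‖ → f x = f y) ∧
      (∀ x : EuclideanSpace ℝ (Fin 2), (f x).im = 0) ∧
      f ≠ 0 ∧
      ∀ r : ℝ, 0 < r →
        (∃ j k : ℤ, r = (4 / 3 : ℝ) ^ ((1 : ℝ) / 4) *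
            Real.sqrt ((j : ℝ) ^ 2 + (j : ℝ) * (k : ℝ) + (k : ℝ) ^ 2)) →
        f (r • EuclideanSpace.single (0 : Fin 2) (1 : ℝ)) = 0 ∧
        deriv (fun t : ℝ => f (t • EuclideanSpace.single (0 : Fin 2) (1 : ℝ))) r = 0 ∧
        𝓕 (f : EuclideanSpace ℝ (Fin 2) → ℂ)
            (r • EuclideanSpace.single (0 : Fin 2) (1 : ℝ)) = 0 ∧
        deriv (fun t : ℝ => 𝓕 (f : EuclideanSpace ℝ (Fin 2) → ℂ)
            (t • EuclideanSpace.single (0 : Fin 2) (1 : ℝ))) r = 0 := by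
  obtain ⟨F, H, H', hF, hFF, hne, hH, hzero⟩ := exists_complex
  -- radial
  have hrad : ∀ x y : V2, ‖x‖ = ‖y‖ → F x = F y := by
    intro x y hxy
    rw [hF, hF, hxy]
  have hconj : 𝓕 (conjS F) = conjS F := by
    ext ξ
    rw [fourier_conjS, hFF, conjS_apply, hrad (-ξ) ξ (norm_neg ξ)]
  -- the candidates
  have hcand : ∃ a : ℂ, a • F + conj a • conjS F ≠ 0 := by
    by_contra hcon
    push Not at hcon
    apply hne
    ext v
    have h1 := congrArg (fun f : 𝓢(V2, ℂ) => f v) (hcon 1)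
    have h2 := congrArg (fun f : 𝓢(V2, ℂ) => f v) (hcon Complex.I)
    simp only [add_apply, smul_apply, zero_apply, conjS_apply, smul_eq_mul, map_one, one_mul,
      Complex.conj_I] at h1 h2
    rw [zero_apply]
    have hI : Complex.I * Complex.I = -1 := Complex.I_mul_I
    linear_combination (1 / 2 : ℂ) * h1 - (1 / 2 : ℂ) * Complex.I * h2 +
      (1 / 2 : ℂ) * (F v - conj (F v)) * hI
  obtain ⟨a, ha⟩ := hcand
  set g : 𝓢(V2, ℂ) := a • F + conj a • conjS F with hg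
  have hgv : ∀ v, g v = a * F v + conj (a * F v) := by
    intro v
    rw [hg]
    simp only [add_apply, smul_apply, conjS_apply, smul_eq_mul, map_mul]
  have hgF : 𝓕 g = g := by
    rw [hg, FourierTransform.fourier_add, FourierTransform.fourier_smul,
      FourierTransform.fourier_smul, hFF, hconj]
  have hgF' : 𝓕 (g : V2 → ℂ) = (g : V2 → ℂ) := by
    rw [← SchwartzMap.fourier_coe, hgF]
  refine ⟨g, ?_, ?_, ha, ?_⟩
  · intro x y hxy
    rw [hgv, hgv, hrad x y hxy]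
  · intro x
    rw [hgv, Complex.add_im, Complex.conj_im]
    ring
  · rintro r hr ⟨j, k, hjk⟩
    obtain ⟨n, hn, hn24, hn2⟩ := loeschian_nat j k
    have hr2 : r ^ 2 = lam * n := by
      have hq : (0 : ℝ) ≤ (j : ℝ) ^ 2 + (j : ℝ) * (k : ℝ) + (k : ℝ) ^ 2 := by
        nlinarith [sq_nonneg ((j : ℝ) + k), sq_nonneg (j : ℝ), sq_nonneg (k : ℝ)]
      have hnR : (n : ℝ) = (j : ℝ) ^ 2 + (j : ℝ) * (k : ℝ) + (k : ℝ) ^ 2 := by exact_mod_cast hn
      have h43 : ((4 / 3 : ℝ) ^ ((1 : ℝ) / 4)) ^ 2 = lam := by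
        unfold lam
        rw [← Real.rpow_natCast, ← Real.rpow_mul (by norm_num), Real.sqrt_eq_rpow]
        norm_num
      rw [hjk, mul_pow, h43, Real.sq_sqrt hq, hnR]
    obtain ⟨hH0, hH1⟩ := hzero n hn24 hn2
    set e0 : V2 := EuclideanSpace.single (0 : Fin 2) (1 : ℝ) with he0
    have hnorm : ∀ t : ℝ, ‖t • e0‖ ^ 2 = t ^ 2 := by
      intro t
      rw [norm_smul, he0, PiLp.norm_single, norm_one, mul_one, Real.norm_eq_abs, sq_abs]
    have hFt : ∀ t : ℝ, F (t • e0) = Complex.exp (((-(Real.pi / 4) * t ^ 2 : ℝ) : ℂ)) * H (t ^ 2) := by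
      intro t
      rw [hF, hnorm]
    have hF0 : F (r • e0) = 0 := by
      rw [hFt, hr2, hH0, mul_zero]
    have hFd : HasDerivAt (fun t : ℝ => F (t • e0)) 0 r := by
      have e1 : (fun t : ℝ => F (t • e0)) =
          fun t : ℝ => Complex.exp (((-(Real.pi / 4) * t ^ 2 : ℝ) : ℂ)) * H (t ^ 2) := funext hFt
      rw [e1]
      have hsq : HasDerivAt (fun t : ℝ => t ^ 2) (2 * r) r := by
        simpa using hasDerivAt_pow 2 r
      have hin : HasDerivAt (fun t : ℝ => ((-(Real.pi / 4) * t ^ 2 : ℝ) : ℂ))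
          (((-(Real.pi / 4) * (2 * r) : ℝ) : ℂ)) r :=
        (hsq.const_mul (-(Real.pi / 4))).ofReal_comp
      have hHc : HasDerivAt (fun t : ℝ => H (t ^ 2)) ((2 * r) • H' (r ^ 2)) r :=
        (hH (r ^ 2)).scomp r hsq
      have hm := hin.cexp.mul hHc
      have : HasDerivAt (fun t : ℝ => Complex.exp (((-(Real.pi / 4) * t ^ 2 : ℝ) : ℂ)) * H (t ^ 2))
          (Complex.exp (((-(Real.pi / 4) * r ^ 2 : ℝ) : ℂ)) * (((-(Real.pi / 4) * (2 * r) : ℝ) : ℂ))
            * H (r ^ 2) + Complex.exp (((-(Real.pi / 4) * r ^ 2 : ℝ) : ℂ)) *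
            ((2 * r) • H' (r ^ 2))) r := hm
      rw [hr2, hH0, hH1] at this
      simpa using this
    have hg0 : g (r • e0) = 0 := by
      rw [hgv, hF0]
      simp
    have hgd : deriv (fun t : ℝ => g (t • e0)) r = 0 := by
      have e1 : (fun t : ℝ => g (t • e0)) =
          fun t : ℝ => a * F (t • e0) + conj (a * F (t • e0)) := funext fun t => hgv _
      rw [e1]
      have h1 : HasDerivAt (fun t : ℝ => a * F (t • e0)) (a * 0) r := hFd.const_mul a
      have h2 := h1.add h1.star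
      have h3 : HasDerivAt (fun t : ℝ => a * F (t • e0) + conj (a * F (t • e0)))
        (a * 0 + star (a * 0)) r := h2
      rw [h3.deriv]
      simp
    refine ⟨hg0, hgd, ?_, ?_⟩
    · rw [hgF']
      exact hg0
    · rw [hgF']
      exact hgd

end Pool.Agent.helper37
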