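import Mathlib

set_option autoImplicit false

namespace Pool.Agent.helper37

open Filter Topology

/-- Abstract solvability lemma. -/
theorem abstract_solve {X : Type*} [NormedAddCommGroup X] [NormedSpace ℂ X] [CompleteSpace X]
    {I : Type*} (φ ψ : I → X →L[ℂ] ℂ) (b : I → X) (C : ℝ) (hC : 0 < C)
    (hb : ∀ i, ‖b i‖ ≤ C)
    (hφ1 : ∀ i, φ i (b i) = 1) (hφ0 : ∀ i j, i ≠ j → φ i (b j) = 0)
    (hψ : Summable (fun i => ‖ψ i‖)) (J : Set I) (hJ : J.Infinite) :
    ∃ G : X, (∀ i, i ∉ J → φ i G + ψ i G = 0) ∧ ∃ j ∈ J, φ j G + ψ j G ≠ 0 := by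
  classical
  -- choose a finite set F outside which the sum is small
  obtain ⟨F, hF⟩ : ∃ F : Finset I, ∑' i : {i // i ∉ F}, ‖ψ i‖ < 1 / (2 * C) := by
    have h := tendsto_tsum_compl_atTop_zero (fun i => ‖ψ i‖)
    have h2 := (h.eventually (gt_mem_nhds (show (0:ℝ) < 1 / (2 * C) by positivity))).exists
    exact h2
  have hsub : Summable (fun i : {i // i ∉ F} => ‖ψ i‖) := hψ.subtype _
  -- the operator
  have hopn : ∀ i : {i // i ∉ F}, ‖(ψ i).smulRight (b i)‖ ≤ ‖ψ i‖ * C := by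
    intro i
    rw [ContinuousLinearMap.norm_smulRight_apply]
    exact mul_le_mul_of_nonneg_left (hb _) (norm_nonneg _)
  have hsumop : Summable (fun i : {i // i ∉ F} => ‖(ψ i).smulRight (b i)‖) :=
    Summable.of_nonneg_of_le (fun _ => norm_nonneg _) hopn (hsub.mul_right C)
  have hsumop' : Summable (fun i : {i // i ∉ F} => (ψ i).smulRight (b i)) := hsumop.of_norm
  set S : X →L[ℂ] X := ∑' i : {i // i ∉ F}, (ψ i).smulRight (b i) with hS
  have hSnorm : ‖S‖ < 1 := by
    calc ‖S‖ ≤ ∑' i : {i // i ∉ F}, ‖(ψ i).smulRight (b i)‖ := norm_tsum_le_tsum_norm hsumop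
      _ ≤ ∑' i : {i // i ∉ F}, ‖ψ i‖ * C := hsumop.tsum_le_tsum hopn (hsub.mul_right C)
      _ = (∑' i : {i // i ∉ F}, ‖ψ i‖) * C := tsum_mul_right
      _ < (1 / (2 * C)) * C := by gcongr
      _ = 1 / 2 := by field_simp
      _ < 1 := by norm_num
  have hSapply : ∀ x : X, S x = ∑' i : {i // i ∉ F}, (ψ i x) • (b i) := by
    intro x
    have := (ContinuousLinearMap.apply ℂ X x).map_tsum hsumop'
    simpa [hS] using this
  have hSsum : ∀ x : X, Summable (fun i : {i // i ∉ F} => (ψ i x) • (b i)) := by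
    intro x
    have := (ContinuousLinearMap.apply ℂ X x).summable hsumop'
    simpa using this
  have hφS : ∀ i x, φ i (S x) = if i ∈ F then 0 else ψ i x := by
    intro i x
    rw [hSapply, (φ i).map_tsum (hSsum x)]
    split_ifs with hi
    · have : ∀ j : {j // j ∉ F}, φ i ((ψ j x) • (b j)) = 0 := by
        intro j
        have hne : i ≠ (j : I) := by
          rintro rfl
          exact j.2 hi
        rw [map_smul, hφ0 i j hne, smul_zero]
      simp [this]
    · rw [tsum_eq_single (⟨i, hi⟩ : {j // j ∉ F})]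
      · rw [map_smul, hφ1, smul_eq_mul, mul_one]
      · intro j hj
        have hne : i ≠ (j : I) := by
          rintro rfl
          exact hj rfl
        rw [map_smul, hφ0 i j hne, smul_zero]
  -- invertibility of 1 + S
  have hneg : ‖-S‖ < 1 := by rwa [norm_neg]
  set U : (X →L[ℂ] X)ˣ := Units.oneSub (-S) hneg with hU
  set R : X →L[ℂ] X := ((U⁻¹ : (X →L[ℂ] X)ˣ) : X →L[ℂ] X) with hR
  have hUR : ∀ x, R x + S (R x) = x := by
    intro x
    have h1 : (U : X →L[ℂ] X) * R = 1 := U.mul_inv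
    have h2 : (U : X →L[ℂ] X) = 1 - (-S) := rfl
    have h3 := congrArg (fun T : X →L[ℂ] X => T x) h1
    rw [h2] at h3
    simpa [sub_neg_eq_add, add_mul] using h3
  -- choose distinct indices in J \ F
  have hJF : (J \ (F : Set I)).Infinite := hJ.sdiff F.finite_toSet
  have : Infinite ↥(J \ (F : Set I)) := hJF.to_subtype
  obtain ⟨e⟩ : Nonempty (ℕ ↪ ↥(J \ (F : Set I))) := ⟨Infinite.natEmbedding _⟩
  set K : ℕ := F.card + 1 with hK
  set jj : Fin K → I := fun k => (e k : I) with hjj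
  have hjjinj : Function.Injective jj := by
    intro k l hkl
    have : e k = e l := Subtype.ext hkl
    exact Fin.ext (e.injective this)
  -- linear map y ↦ G_y
  let Gy : (Fin K → ℂ) →ₗ[ℂ] X := ∑ k : Fin K, (LinearMap.proj k).smulRight (b (jj k))
  have hGy : ∀ y, Gy y = ∑ k : Fin K, y k • b (jj k) := by
    intro y
    simp [Gy]
  let L : (Fin K → ℂ) →ₗ[ℂ] (F → ℂ) :=
    LinearMap.pi (fun i : F => ((φ i : X →ₗ[ℂ] ℂ) + (ψ i : X →ₗ[ℂ] ℂ)) ∘ₗ (R : X →ₗ[ℂ] X) ∘ₗ Gy)
  have hker : LinearMap.ker L ≠ ⊥ := by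
    apply LinearMap.ker_ne_bot_of_finrank_lt
    simp [hK]
  obtain ⟨y, hy, hy0⟩ := Submodule.exists_mem_ne_zero_of_ne_bot hker
  refine ⟨R (Gy y), ?_, ?_⟩
  · intro i hi
    by_cases hiF : i ∈ F
    · have h1 := congrFun (LinearMap.mem_ker.mp hy) ⟨i, hiF⟩
      simpa [L] using h1
    · have h1 := congrArg (φ i) (hUR (Gy y))
      rw [map_add, hφS, if_neg hiF] at h1
      rw [h1, hGy, map_sum]
      apply Finset.sum_eq_zero
      intro k _
      have hne : i ≠ jj k := by
        rintro rfl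
        exact hi (e k).2.1
      rw [map_smul, hφ0 i _ hne, smul_zero]
  · obtain ⟨k, hk⟩ : ∃ k, y k ≠ 0 := by
      by_contra hcon
      push Not at hcon
      exact hy0 (funext hcon)
    refine ⟨jj k, (e k).2.1, ?_⟩
    have hiF : jj k ∉ F := fun hcon => (e k).2.2 hcon
    have h1 := congrArg (φ (jj k)) (hUR (Gy y))
    rw [map_add, hφS, if_neg hiF] at h1
    rw [h1, hGy, map_sum, Finset.sum_eq_single k]
    · rw [map_smul, hφ1, smul_eq_mul, mul_one]
      exact hk
    · intro l _ hl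
      have hne : jj k ≠ jj l := fun hcon => hl (hjjinj hcon).symm
      rw [map_smul, hφ0 _ _ hne, smul_zero]
    · intro h
      exact absurd (Finset.mem_univ k) h

end Pool.Agent.helper37
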