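import Mathlib

set_option autoImplicit false

namespace Pool.Agent.helper37

open Filter Topology MeasureTheory
open scoped SchwartzMap FourierTransform ContDiff

/-- One-variable Schwartz function equal to `exp (-b T)` for `T ≥ 0`. -/
theorem exists_expCut (b : ℝ) (hb : 0 < b) :
    ∃ F : 𝓢(ℝ, ℂ), ∀ T : ℝ, 0 ≤ T → F T = Complex.exp (-(b : ℂ) * T) := by
  set f : ℝ → ℂ := fun T => (Real.smoothTransition (T + 1) : ℂ) * Complex.exp (-(b : ℂ) * T) with hf
  have hsm : ContDiff ℝ ∞ f := by
    apply ContDiff.mul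
    · exact Complex.ofRealCLM.contDiff.comp
        ((Real.smoothTransition.contDiff).comp (contDiff_id.add contDiff_const))
    · apply ContDiff.cexp
      exact contDiff_const.mul Complex.ofRealCLM.contDiff
  have hpos : ∀ T : ℝ, 0 ≤ T → f T = Complex.exp (-(b : ℂ) * T) := by
    intro T hT
    simp only [hf]
    rw [Real.smoothTransition.one_of_one_le (by linarith)]
    simp
  have hneg : ∀ T : ℝ, T ≤ -1 → f T = 0 := by
    intro T hT
    simp only [hf]
    rw [Real.smoothTransition.zero_of_nonpos (by linarith)]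
    simp
  have hexp : ∀ n : ℕ, iteratedDeriv n (fun T : ℝ => Complex.exp (-(b : ℂ) * T))
      = fun T : ℝ => (-(b : ℂ)) ^ n * Complex.exp (-(b : ℂ) * T) := by
    intro n
    induction n with
    | zero => simp
    | succ n ih =>
      rw [iteratedDeriv_succ, ih]
      funext T
      have h1 : HasDerivAt (fun T : ℝ => (-(b : ℂ)) ^ n * Complex.exp (-(b : ℂ) * T))
          ((-(b : ℂ)) ^ n * (Complex.exp (-(b : ℂ) * T) * (-(b : ℂ) * 1))) T := by
        apply HasDerivAt.const_mul
        apply HasDerivAt.cexp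
        apply HasDerivAt.const_mul
        exact Complex.ofRealCLM.hasDerivAt
      rw [h1.deriv]
      ring
  refine ⟨⟨f, hsm, ?_⟩, fun T hT => hpos T hT⟩
  intro k n
  -- compact part
  have hcont : Continuous (fun T : ℝ => ‖T‖ ^ k * ‖iteratedFDeriv ℝ n f T‖) := by
    apply (continuous_norm.pow k).mul
    exact (hsm.continuous_iteratedFDeriv (by exact_mod_cast le_top)).norm
  obtain ⟨B, hB⟩ := (isCompact_Icc (a := (-1 : ℝ)) (b := 0)).exists_bound_of_continuousOn
    hcont.continuousOn
  refine ⟨max B (b ^ n * (k.factorial / b ^ k)), ?_⟩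
  intro T
  rcases lt_or_ge T (-1) with h1 | h1
  · have hev : f =ᶠ[𝓝 T] fun _ => (0 : ℂ) := by
      filter_upwards [gt_mem_nhds h1] with x hx
      exact hneg x hx.le
    have : iteratedFDeriv ℝ n f T = 0 := by
      rw [hev.iteratedFDeriv ℝ n |>.eq_of_nhds]
      simp
    rw [this]
    simp only [norm_zero, mul_zero]
    apply le_max_of_le_right
    positivity
  · rcases le_or_gt T 0 with h2 | h2
    · apply le_max_of_le_left
      have := hB T ⟨h1, h2⟩
      rwa [Real.norm_of_nonneg (by positivity)] at this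
    · apply le_max_of_le_right
      have hev : f =ᶠ[𝓝 T] fun T : ℝ => Complex.exp (-(b : ℂ) * T) := by
        filter_upwards [lt_mem_nhds h2] with x hx
        exact hpos x hx.le
      rw [hev.iteratedFDeriv ℝ n |>.eq_of_nhds, norm_iteratedFDeriv_eq_norm_iteratedDeriv, hexp]
      rw [norm_mul, norm_pow, norm_neg, Complex.norm_real, Complex.norm_exp]
      have hre : (-(b : ℂ) * (T : ℂ)).re = -(b * T) := by simp
      rw [hre, Real.norm_of_nonneg h2.le, Real.norm_of_nonneg hb.le]
      have hfac := Real.pow_div_factorial_le_exp (b * T) (by positivity) k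
      have h3 : (b * T) ^ k ≤ k.factorial * Real.exp (b * T) := by
        rw [div_le_iff₀ (by positivity)] at hfac
        linarith
      have h4 : T ^ k * Real.exp (-(b * T)) ≤ k.factorial / b ^ k := by
        rw [Real.exp_neg, le_div_iff₀ (by positivity)]
        rw [mul_pow] at h3
        have hE := Real.exp_pos (b * T)
        calc T ^ k * (Real.exp (b * T))⁻¹ * b ^ k = (b ^ k * T ^ k) * (Real.exp (b * T))⁻¹ := by ring
          _ ≤ (k.factorial * Real.exp (b * T)) * (Real.exp (b * T))⁻¹ := by gcongr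
          _ = k.factorial := by field_simp
      calc T ^ k * (b ^ n * Real.exp (-(b * T))) = b ^ n * (T ^ k * Real.exp (-(b * T))) := by ring
        _ ≤ b ^ n * (k.factorial / b ^ k) := by gcongr

/-- Radial Schwartz function `exp (-b ‖v‖ ^ 2)`. -/
theorem exists_gaussian {V : Type*} [NormedAddCommGroup V] [InnerProductSpace ℝ V]
    (b : ℝ) (hb : 0 < b) :
    ∃ F : 𝓢(V, ℂ), ∀ v : V, F v = Complex.exp (-(b : ℂ) * ((‖v‖ ^ 2 : ℝ) : ℂ)) := by
  obtain ⟨F, hF⟩ := exists_expCut b hb
  refine ⟨SchwartzMap.compCLM ℂ (Function.hasTemperateGrowth_norm_sq V) ?_ F, ?_⟩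
  · refine ⟨1, 1, fun x => ?_⟩
    rw [pow_one, one_mul, Real.norm_of_nonneg (by positivity)]
    nlinarith [norm_nonneg x, sq_nonneg (‖x‖ - 1)]
  · intro v
    rw [SchwartzMap.compCLM_apply]
    simp only [Function.comp]
    exact hF _ (by positivity)

end Pool.Agent.helper37
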