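import Mathlib

set_option autoImplicit false

namespace Pool.Agent.helper37

open Filter Topology MeasureTheory
open scoped SchwartzMap FourierTransform ContDiff

/-- Superposition of exponentials `exp (i π θ(s) T)`, `s ∈ [0,1]`, with weight `w`. -/
noncomputable def ex (w θ : ℝ → ℂ) (T : ℝ) : ℂ :=
  ∫ s in (0:ℝ)..1, w s * Complex.exp (Complex.I * Real.pi * θ s * T)

theorem hasDerivAt_ex (w θ : ℝ → ℂ) (hw : Continuous w) (hθ : Continuous θ) (T : ℝ) :
    HasDerivAt (ex w θ) (ex (fun s => w s * (Complex.I * Real.pi * θ s)) θ T) T := by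
  have hmeas : ∀ T : ℝ, Continuous (fun s : ℝ => w s * Complex.exp (Complex.I * Real.pi * θ s * T)) := by
    intro T
    fun_prop
  have hmeas' : ∀ T : ℝ, Continuous (fun s : ℝ => (w s * (Complex.I * Real.pi * θ s)) *
      Complex.exp (Complex.I * Real.pi * θ s * T)) := by
    intro T
    fun_prop
  have key := intervalIntegral.hasDerivAt_integral_of_dominated_loc_of_deriv_le
    (μ := volume) (a := 0) (b := 1) (x₀ := T) (s := Metric.ball T 1)
    (F := fun (T : ℝ) (s : ℝ) => w s * Complex.exp (Complex.I * Real.pi * θ s * T))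
    (F' := fun (T : ℝ) (s : ℝ) => (w s * (Complex.I * Real.pi * θ s)) *
      Complex.exp (Complex.I * Real.pi * θ s * T))
    (bound := fun s => ‖w s * (Complex.I * Real.pi * θ s)‖ *
      Real.exp (‖Complex.I * Real.pi * θ s‖ * (|T| + 1)))
    (Metric.ball_mem_nhds T one_pos)
    (Eventually.of_forall fun x => (hmeas x).aestronglyMeasurable)
    ((hmeas T).intervalIntegrable _ _)
    ((hmeas' T).aestronglyMeasurable)
    (Eventually.of_forall ?_)
    (Continuous.intervalIntegrable (by fun_prop) _ _)
    (Eventually.of_forall ?_)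
  · exact key.2
  · intro s _ x hx
    rw [norm_mul]
    refine mul_le_mul_of_nonneg_left ?_ (norm_nonneg _)
    refine (Complex.norm_exp_le_exp_norm _).trans ?_
    apply Real.exp_le_exp.mpr
    rw [norm_mul]
    refine mul_le_mul_of_nonneg_left ?_ (norm_nonneg _)
    rw [Complex.norm_real, Real.norm_eq_abs]
    have h1 : |x - T| < 1 := by
      rw [← Real.dist_eq]
      exact hx
    have h2 := abs_sub_abs_le_abs_sub x T
    linarith
  · intro s _ x _
    have h1 : HasDerivAt (fun x : ℝ => Complex.I * Real.pi * θ s * (x : ℂ))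
        (Complex.I * Real.pi * θ s * 1) x := by
      apply HasDerivAt.const_mul
      exact Complex.ofRealCLM.hasDerivAt
    have h2 := (h1.cexp).const_mul (w s)
    exact h2.congr_deriv (by ring)

theorem contDiff_ex (n : ℕ) (w θ : ℝ → ℂ) (hw : Continuous w) (hθ : Continuous θ) :
    ContDiff ℝ n (ex w θ) := by
  induction n generalizing w with
  | zero =>
    simp only [Nat.cast_zero, contDiff_zero]
    exact continuous_iff_continuousAt.mpr fun T => (hasDerivAt_ex w θ hw hθ T).continuousAt
  | succ n ih =>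
    have hd : deriv (ex w θ) = ex (fun s => w s * (Complex.I * Real.pi * θ s)) θ :=
      funext fun T => (hasDerivAt_ex w θ hw hθ T).deriv
    rw [Nat.cast_succ, contDiff_succ_iff_deriv]
    refine ⟨fun T => (hasDerivAt_ex w θ hw hθ T).differentiableAt, by simp, ?_⟩
    rw [hd]
    exact ih _ (by fun_prop)

theorem iteratedDeriv_ex (n : ℕ) (w θ : ℝ → ℂ) (hw : Continuous w) (hθ : Continuous θ) :
    iteratedDeriv n (ex w θ) = ex (fun s => w s * (Complex.I * Real.pi * θ s) ^ n) θ := by
  induction n generalizing w with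
  | zero => simp
  | succ n ih =>
    have hd : deriv (ex w θ) = ex (fun s => w s * (Complex.I * Real.pi * θ s)) θ :=
      funext fun T => (hasDerivAt_ex w θ hw hθ T).deriv
    rw [iteratedDeriv_succ', hd, ih _ (by fun_prop)]
    congr 1
    funext s
    ring

/-- For real frequencies, `ex w θ` has temperate growth. -/
theorem hasTemperateGrowth_ex (w : ℝ → ℂ) (θ : ℝ → ℝ) (hw : Continuous w) (hθ : Continuous θ) :
    Function.HasTemperateGrowth (ex w (fun s => (θ s : ℂ))) := by
  have hθ' : Continuous (fun s => (θ s : ℂ)) := Complex.continuous_ofReal.comp hθ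
  refine ⟨contDiff_infty.mpr fun n => contDiff_ex n _ _ hw hθ', fun n => ?_⟩
  have hc : Continuous (fun s : ℝ => ‖w s * (Complex.I * Real.pi * (θ s : ℂ)) ^ n‖) := by fun_prop
  obtain ⟨B, hB⟩ := (isCompact_Icc (a := (0 : ℝ)) (b := 1)).exists_bound_of_continuousOn
    hc.continuousOn
  refine ⟨0, B, fun T => ?_⟩
  rw [norm_iteratedFDeriv_eq_norm_iteratedDeriv, iteratedDeriv_ex n w _ hw hθ', pow_zero, mul_one]
  have h1 : ‖ex (fun s => w s * (Complex.I * Real.pi * (θ s : ℂ)) ^ n) (fun s => (θ s : ℂ)) T‖
      ≤ B * |(1:ℝ) - 0| := by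
    apply intervalIntegral.norm_integral_le_of_norm_le_const
    intro s hs
    rw [Set.uIoc_of_le zero_le_one] at hs
    have h2 := hB s ⟨hs.1.le, hs.2⟩
    rw [norm_norm] at h2
    rw [norm_mul]
    have h3 : ‖Complex.exp (Complex.I * Real.pi * (θ s : ℂ) * T)‖ = 1 := by
      have : Complex.I * Real.pi * (θ s : ℂ) * T = ((Real.pi * θ s * T : ℝ) : ℂ) * Complex.I := by
        push_cast; ring
      rw [this, Complex.norm_exp_ofReal_mul_I]
    rw [h3, mul_one]
    exact h2
  simpa using h1

end Pool.Agent.helper37
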