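import Pool.Agent.helper37.HexA
import Pool.Agent.helper37.HexB
import Pool.Agent.helper37.HexC

set_option autoImplicit false

namespace Pool.Agent.helper37

open Filter Topology MeasureTheory
open scoped SchwartzMap FourierTransform ContDiff RealInnerProductSpace

abbrev V2 : Type := EuclideanSpace ℝ (Fin 2)

/-- The superposition of Gaussians is a Schwartz function. -/
theorem exists_schwartz (w : ℝ → ℂ) (θ : ℝ → ℝ) (hw : Continuous w) (hθ : Continuous θ)
    (y : ℝ) (hy : 0 < y) :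
    ∃ f : 𝓢(V2, ℂ), ∀ v : V2, f v = ex w (fun s => (θ s : ℂ) + Complex.I * y) (‖v‖ ^ 2) := by
  obtain ⟨g, hg⟩ := exists_gaussian (V := V2) (Real.pi * y) (by positivity)
  have htg : Function.HasTemperateGrowth
      (fun v : V2 => ex w (fun s => (θ s : ℂ)) (‖v‖ ^ 2)) :=
    (hasTemperateGrowth_ex w θ hw hθ).comp (Function.hasTemperateGrowth_norm_sq V2)
  refine ⟨SchwartzMap.smulLeftCLM ℂ (fun v : V2 => ex w (fun s => (θ s : ℂ)) (‖v‖ ^ 2)) g, ?_⟩
  intro v
  rw [SchwartzMap.smulLeftCLM_apply_apply htg, hg, smul_eq_mul]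
  unfold ex
  rw [← intervalIntegral.integral_mul_const]
  apply intervalIntegral.integral_congr
  intro s _
  simp only
  rw [mul_assoc, ← Complex.exp_add]
  congr 2
  push_cast
  have hI : Complex.I * Complex.I = -1 := Complex.I_mul_I
  linear_combination (-(Real.pi : ℂ) * y * (‖v‖ : ℂ) ^ 2) * hI

/-- Fourier transform of the Gaussian `exp (i π τ |v|^2)` on the plane. -/
theorem fourier_gauss (τ : ℂ) (hτ : 0 < τ.im) (ξ : V2) :
    ∫ v : V2, Complex.exp ((↑(-2 * Real.pi * ⟪v, ξ⟫) * Complex.I)) •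
      Complex.exp (Complex.I * Real.pi * τ * ((‖v‖ ^ 2 : ℝ) : ℂ))
      = (Complex.I / τ) * Complex.exp (Complex.I * Real.pi * (-1 / τ) * ((‖ξ‖ ^ 2 : ℝ) : ℂ)) := by
  have hτ0 : τ ≠ 0 := by
    rintro rfl
    simp at hτ
  have hpi : (Real.pi : ℂ) ≠ 0 := by exact_mod_cast Real.pi_ne_zero
  have hb : 0 < (-(Complex.I * Real.pi * τ)).re := by
    simp
    positivity
  have key := fourier_gaussian_innerProductSpace (V := V2) hb ξ
  rw [Real.fourier_eq'] at key
  have e1 : (fun v : V2 => Complex.exp ((↑(-2 * Real.pi * ⟪v, ξ⟫) * Complex.I)) •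
      Complex.exp (Complex.I * Real.pi * τ * ((‖v‖ ^ 2 : ℝ) : ℂ))) =
      (fun v : V2 => Complex.exp ((↑(-2 * Real.pi * ⟪v, ξ⟫) * Complex.I)) •
      Complex.exp (- -(Complex.I * Real.pi * τ) * (‖v‖ : ℂ) ^ 2)) := by
    funext v
    have e0 : Complex.I * Real.pi * τ * ((‖v‖ ^ 2 : ℝ) : ℂ)
        = - -(Complex.I * Real.pi * τ) * (‖v‖ : ℂ) ^ 2 := by
      push_cast
      ring
    rw [e0]
  rw [e1, key]
  have hfin : (Module.finrank ℝ V2 / 2 : ℂ) = 1 := by
    simp
  rw [hfin, Complex.cpow_one]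
  congr 1
  · field_simp
    have hI : Complex.I * Complex.I = -1 := Complex.I_mul_I
    linear_combination (-1 : ℂ) * hI
  · congr 1
    push_cast
    field_simp
    have hI : Complex.I * Complex.I = -1 := Complex.I_mul_I
    linear_combination (‖ξ‖ : ℂ) ^ 2 * hI

theorem fourier_ex (w : ℝ → ℂ) (θ : ℝ → ℝ) (hw : Continuous w) (hθ : Continuous θ)
    (B : ℝ) (hB : ∀ s, ‖w s‖ ≤ B) (y : ℝ) (hy : 0 < y) (ξ : V2) :
    𝓕 (fun v : V2 => ex w (fun s => (θ s : ℂ) + Complex.I * y) (‖v‖ ^ 2)) ξ =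
      ex (fun s => w s * (Complex.I / ((θ s : ℂ) + Complex.I * y)))
        (fun s => -1 / ((θ s : ℂ) + Complex.I * y)) (‖ξ‖ ^ 2) := by
  rw [Real.fourier_eq']
  unfold ex
  have him : ∀ s, 0 < ((θ s : ℂ) + Complex.I * y).im := by
    intro s
    simp [hy]
  -- integrability on the product
  have hint : Integrable (Function.uncurry (fun (s : ℝ) (v : V2) =>
      Complex.exp ((↑(-2 * Real.pi * ⟪v, ξ⟫) * Complex.I)) •
        (w s * Complex.exp (Complex.I * Real.pi * ((θ s : ℂ) + Complex.I * y) *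
          ((‖v‖ ^ 2 : ℝ) : ℂ)))))
      ((volume.restrict (Set.uIoc (0:ℝ) 1)).prod volume) := by
    have hg : Integrable (fun v : V2 => Real.exp (-(Real.pi * y) * ‖v‖ ^ 2)) := by
      have h1 := GaussianFourier.integrable_cexp_neg_mul_sq_norm_add (V := V2)
        (b := ((Real.pi * y : ℝ) : ℂ)) (by simpa using by positivity) 0 0
      have h2 := h1.norm
      refine h2.congr (Eventually.of_forall fun v => ?_)
      simp only
      rw [Complex.norm_exp, zero_mul, add_zero, ← Complex.ofReal_pow, ← Complex.ofReal_neg,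
        ← Complex.ofReal_mul, Complex.ofReal_re]
    have hg2 : Integrable (fun p : ℝ × V2 => B * Real.exp (-(Real.pi * y) * ‖p.2‖ ^ 2))
        ((volume.restrict (Set.uIoc (0:ℝ) 1)).prod volume) := by
      have : IsFiniteMeasure (volume.restrict (Set.uIoc (0:ℝ) 1)) := by
        rw [Set.uIoc_of_le zero_le_one]
        infer_instance
      exact (hg.comp_snd _).const_mul B
    refine hg2.mono' ?_ ?_
    · apply Continuous.aestronglyMeasurable
      unfold Function.uncurry
      fun_prop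
    · refine Eventually.of_forall fun p => ?_
      unfold Function.uncurry
      simp only
      rw [norm_smul, Complex.norm_exp_ofReal_mul_I, one_mul, norm_mul, Complex.norm_exp]
      have hre : (Complex.I * Real.pi * ((θ p.1 : ℂ) + Complex.I * y) *
          ((‖p.2‖ ^ 2 : ℝ) : ℂ)).re = -(Real.pi * y) * ‖p.2‖ ^ 2 := by
        rw [Complex.re_mul_ofReal]
        simp
      rw [hre]
      have := hB p.1
      gcongr
  have hsw := intervalIntegral_integral_swap hint
  have e1 : (fun v : V2 => Complex.exp ((↑(-2 * Real.pi * ⟪v, ξ⟫) * Complex.I)) •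
      ∫ s in (0:ℝ)..1, w s * Complex.exp (Complex.I * Real.pi * ((θ s : ℂ) + Complex.I * y) *
          ((‖v‖ ^ 2 : ℝ) : ℂ))) = fun v : V2 => ∫ s in (0:ℝ)..1,
      Complex.exp ((↑(-2 * Real.pi * ⟪v, ξ⟫) * Complex.I)) •
        (w s * Complex.exp (Complex.I * Real.pi * ((θ s : ℂ) + Complex.I * y) *
          ((‖v‖ ^ 2 : ℝ) : ℂ))) := by
    funext v
    rw [intervalIntegral.integral_smul]
  rw [e1, ← hsw]
  apply intervalIntegral.integral_congr
  intro s _
  simp only
  have e2 : (fun v : V2 => Complex.exp ((↑(-2 * Real.pi * ⟪v, ξ⟫) * Complex.I)) •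
        (w s * Complex.exp (Complex.I * Real.pi * ((θ s : ℂ) + Complex.I * y) *
          ((‖v‖ ^ 2 : ℝ) : ℂ)))) = fun v : V2 => w s *
      (Complex.exp ((↑(-2 * Real.pi * ⟪v, ξ⟫) * Complex.I)) •
        Complex.exp (Complex.I * Real.pi * ((θ s : ℂ) + Complex.I * y) *
          ((‖v‖ ^ 2 : ℝ) : ℂ))) := by
    funext v
    simp only [smul_eq_mul]
    ring
  rw [e2, integral_const_mul, fourier_gauss _ (him s)]
  ring

end Pool.Agent.helper37
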