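import Mathlib

set_option autoImplicit false

namespace Pool.Agent.helper37

open Polynomial

/-- residues modulo 24 used as nodes -/
def resSet : Finset ℕ := (Finset.range 24).filter (fun n => (n % 3 ≠ 2 ∧ n % 4 ≠ 2) ∨ n = 2)

theorem card_resSet : resSet.card = 13 := by decide

theorem resSet_lt {a : ℕ} (ha : a ∈ resSet) : a < 24 := by
  have := (Finset.mem_filter.mp ha).1
  exact Finset.mem_range.mp this

/-- the root of unity `exp(2 π i n / 24)` -/
noncomputable def zz (n : ℕ) : ℂ := Complex.exp (2 * Real.pi * Complex.I * n / 24)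

theorem zz_ne_zero (n : ℕ) : zz n ≠ 0 := Complex.exp_ne_zero _

theorem zz_inj {a b : ℕ} (ha : a < 24) (hb : b < 24) (h : zz a = zz b) : a = b := by
  have hprim := Complex.isPrimitiveRoot_exp 24 (by norm_num)
  have e : ∀ n : ℕ, zz n = Complex.exp (2 * Real.pi * Complex.I / (24 : ℕ)) ^ n := by
    intro n
    unfold zz
    rw [← Complex.exp_nat_mul]
    congr 1
    push_cast
    ring
  rw [e, e] at h
  exact hprim.pow_inj ha hb h

theorem zz_mod (n : ℕ) : zz (n % 24) = zz n := by
  unfold zz
  have h : (n : ℂ) = ((n % 24 : ℕ) : ℂ) + 24 * ((n / 24 : ℕ) : ℂ) := by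
    have := Nat.mod_add_div n 24
    exact_mod_cast this.symm
  have h2 : 2 * Real.pi * Complex.I * (n : ℂ) / 24 =
      2 * Real.pi * Complex.I * ((n % 24 : ℕ) : ℂ) / 24 +
        ((n / 24 : ℕ) : ℂ) * (2 * Real.pi * Complex.I) := by
    rw [h]
    ring
  rw [h2, Complex.exp_add, Complex.exp_nat_mul_two_pi_mul_I, mul_one]

/-- `exp(2 π i (k-13) n / 24)` -/
noncomputable def EE (k : Fin 26) (n : ℕ) : ℂ := zz n ^ (k : ℕ) * (zz n ^ 13)⁻¹

theorem EE_mod (k : Fin 26) (n : ℕ) : EE k (n % 24) = EE k n := by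
  unfold EE
  rw [zz_mod]

theorem EE_eq (k : Fin 26) (n : ℕ) :
    EE k n = Complex.exp (2 * Real.pi * Complex.I * ((k : ℕ) - 13) * n / 24) := by
  unfold EE zz
  rw [← Complex.exp_nat_mul, ← Complex.exp_nat_mul, ← Complex.exp_neg, ← Complex.exp_add]
  congr 1
  push_cast
  ring

noncomputable def S0 (c : Fin 26 → ℂ) (n : ℕ) : ℂ := ∑ k, c k * EE k n
noncomputable def S1 (c : Fin 26 → ℂ) (n : ℕ) : ℂ :=
  ∑ k : Fin 26, (((k : ℕ) : ℂ) - 13) * c k * EE k n

noncomputable def poly (c : Fin 26 → ℂ) : ℂ[X] := ∑ k : Fin 26, C (c k) * X ^ (k : ℕ)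

theorem poly_coeff (c : Fin 26 → ℂ) (k : Fin 26) : (poly c).coeff k = c k := by
  unfold poly
  rw [finsetSum_coeff]
  rw [Finset.sum_eq_single k]
  · simp
  · intro j _ hj
    rw [coeff_C_mul_X_pow, if_neg]
    intro h
    exact hj (Fin.ext h.symm)
  · intro h
    exact absurd (Finset.mem_univ k) h

theorem poly_degree_lt (c : Fin 26 → ℂ) : (poly c).degree < 26 := by
  unfold poly
  refine lt_of_le_of_lt (degree_sum_le _ _) ?_
  rw [Finset.sup_lt_iff (by exact WithBot.bot_lt_coe 26)]
  intro k _
  refine lt_of_le_of_lt (degree_C_mul_X_pow_le _ _) ?_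
  exact_mod_cast k.2

theorem S0_eq (c : Fin 26 → ℂ) (n : ℕ) : S0 c n = (poly c).eval (zz n) * (zz n ^ 13)⁻¹ := by
  unfold S0 poly EE
  rw [eval_finsetSum, Finset.sum_mul]
  apply Finset.sum_congr rfl
  intro k _
  simp
  ring

theorem S1_eq (c : Fin 26 → ℂ) (n : ℕ) : S1 c n =
    ((zz n) * (derivative (poly c)).eval (zz n) - 13 * (poly c).eval (zz n)) * (zz n ^ 13)⁻¹ := by
  unfold S1 poly EE
  rw [derivative_sum, eval_finsetSum, eval_finsetSum, Finset.mul_sum, Finset.mul_sum,
    ← Finset.sum_sub_distrib, Finset.sum_mul]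
  apply Finset.sum_congr rfl
  intro k _
  rcases Nat.eq_zero_or_pos (k : ℕ) with hk | hk
  · rw [hk]
    simp
  · obtain ⟨m, hm⟩ : ∃ m, (k : ℕ) = m + 1 := ⟨(k : ℕ) - 1, by omega⟩
    rw [hm]
    simp
    ring

theorem poly_eq_zero (c : Fin 26 → ℂ) (h : ∀ a ∈ resSet, S0 c a = 0 ∧ S1 c a = 0) : c = 0 := by
  have hz : poly c = 0 := by
    have hdvd : (∏ a ∈ resSet, (X - C (zz a)) ^ 2) ∣ poly c := by
      apply Finset.prod_dvd_of_coprime
      · intro a ha b hb hab
        apply IsCoprime.pow
        apply isCoprime_X_sub_C_of_isUnit_sub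
        rw [isUnit_iff_ne_zero, sub_ne_zero]
        intro hh
        exact hab (zz_inj (resSet_lt ha) (resSet_lt hb) hh)
      · intro a ha
        by_cases hp : poly c = 0
        · rw [hp]; exact dvd_zero _
        · have h0 := (h a ha).1
          have h1 := (h a ha).2
          rw [S0_eq] at h0
          rw [S1_eq] at h1
          have hz13 : (zz a ^ 13)⁻¹ ≠ 0 := inv_ne_zero (pow_ne_zero _ (zz_ne_zero a))
          have r0 : (poly c).eval (zz a) = 0 := by
            rcases mul_eq_zero.mp h0 with h | h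
            · exact h
            · exact absurd h hz13
          have r1 : (derivative (poly c)).eval (zz a) = 0 := by
            rcases mul_eq_zero.mp h1 with h | h
            · rw [r0, mul_zero, sub_zero] at h
              rcases mul_eq_zero.mp h with h | h
              · exact absurd h (zz_ne_zero a)
              · exact h
            · exact absurd h hz13
          rw [← le_rootMultiplicity_iff hp]
          have := (one_lt_rootMultiplicity_iff_isRoot hp (t := zz a)).mpr ⟨r0, r1⟩
          exact this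
    apply eq_zero_of_dvd_of_degree_lt hdvd
    refine lt_of_lt_of_le (poly_degree_lt c) ?_
    rw [degree_prod]
    simp only [degree_pow, degree_X_sub_C]
    rw [Finset.sum_const, card_resSet]
    norm_num
  funext k
  rw [← poly_coeff c k, hz]
  simp

/-- Hermite interpolation at the nodes. -/
theorem exists_coeff : ∃ c c' : ℕ → Fin 26 → ℂ, ∀ a ∈ resSet, ∀ n : ℕ, n % 24 ∈ resSet →
    (S0 (c a) n = if n % 24 = a then 1 else 0) ∧ (S1 (c a) n = 0) ∧
    (S0 (c' a) n = 0) ∧ (S1 (c' a) n = if n % 24 = a then 1 else 0) := by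
  classical
  let L : (Fin 26 → ℂ) →ₗ[ℂ] (resSet → ℂ × ℂ) :=
    { toFun := fun c a => (S0 c a, S1 c a)
      map_add' := by
        intro c d
        funext a
        simp only [S0, S1, Pi.add_apply, Prod.mk_add_mk, ← Finset.sum_add_distrib]
        congr 1
        · apply Finset.sum_congr rfl; intro k _; ring
        · apply Finset.sum_congr rfl; intro k _; ring
      map_smul' := by
        intro r c
        funext a
        simp only [S0, S1, Pi.smul_apply, smul_eq_mul, Prod.smul_mk, Finset.mul_sum,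
          RingHom.id_apply]
        congr 1
        · apply Finset.sum_congr rfl; intro k _; ring
        · apply Finset.sum_congr rfl; intro k _; ring }
  have hL : ∀ c a, L c a = (S0 c a, S1 c a) := fun _ _ => rfl
  have hinj : Function.Injective L := by
    rw [← LinearMap.ker_eq_bot, LinearMap.ker_eq_bot']
    intro c hc
    apply poly_eq_zero
    intro a ha
    have := congrFun hc ⟨a, ha⟩
    rw [hL] at this
    simpa using this
  have hsurj : Function.Surjective L := by
    refine (LinearMap.injective_iff_surjective_of_finrank_eq_finrank ?_).mp hinj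
    rw [Module.finrank_pi_fintype, Module.finrank_pi_fintype]
    simp [card_resSet, Module.finrank_prod]
  have hmod : ∀ c n, S0 c (n % 24) = S0 c n ∧ S1 c (n % 24) = S1 c n := by
    intro c n
    constructor
    · unfold S0
      apply Finset.sum_congr rfl; intro k _; rw [EE_mod]
    · unfold S1
      apply Finset.sum_congr rfl; intro k _; rw [EE_mod]
  have h1 : ∀ a : ℕ, ∃ c : Fin 26 → ℂ, a ∈ resSet → ∀ n : ℕ, n % 24 ∈ resSet →
      (S0 c n = if n % 24 = a then 1 else 0) ∧ (S1 c n = 0) := by
    intro a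
    obtain ⟨c, hc⟩ := hsurj (fun b => if (b : ℕ) = a then (1, 0) else 0)
    refine ⟨c, fun _ n hn => ?_⟩
    have := congrFun hc ⟨n % 24, hn⟩
    rw [hL] at this
    simp only at this
    rw [(hmod c n).1, (hmod c n).2] at this
    split_ifs at this ⊢ with h
    · exact Prod.ext_iff.mp this
    · exact Prod.ext_iff.mp this
  have h2 : ∀ a : ℕ, ∃ c : Fin 26 → ℂ, a ∈ resSet → ∀ n : ℕ, n % 24 ∈ resSet →
      (S0 c n = 0) ∧ (S1 c n = if n % 24 = a then 1 else 0) := by
    intro a
    obtain ⟨c, hc⟩ := hsurj (fun b => if (b : ℕ) = a then (0, 1) else 0)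
    refine ⟨c, fun _ n hn => ?_⟩
    have := congrFun hc ⟨n % 24, hn⟩
    rw [hL] at this
    simp only at this
    rw [(hmod c n).1, (hmod c n).2] at this
    split_ifs at this ⊢ with h
    · exact Prod.ext_iff.mp this
    · exact Prod.ext_iff.mp this
  choose c hc using h1
  choose c' hc' using h2
  exact ⟨c, c', fun a ha n hn => ⟨(hc a ha n hn).1, (hc a ha n hn).2, (hc' a ha n hn).1,
    (hc' a ha n hn).2⟩⟩

end Pool.Agent.helper37
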