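import Pool.Agent.helper37.HexD
import Pool.Agent.helper37.HexE

set_option autoImplicit false

namespace Pool.Agent.helper37

open Filter Topology MeasureTheory
open scoped BoundedContinuousFunction

/-- The Banach space of coefficient functions. -/
abbrev XX : Type := ℝ →ᵇ (Fin 26 → ℂ)

theorem cont_comp (G : XX) (k : Fin 26) : Continuous (fun s => G s k) :=
  (continuous_apply k).comp G.continuous

theorem norm_comp_le (G : XX) (k : Fin 26) (s : ℝ) : ‖G s k‖ ≤ ‖G‖ :=
  (norm_le_pi_norm (G s) k).trans (G.norm_coe_le_norm s)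

/-- pairing functional with a continuous kernel -/
noncomputable def pr (κ : Fin 26 → ℝ → ℂ) (G : XX) : ℂ :=
  ∑ k, ∫ s in (0:ℝ)..1, G s k * κ k s

theorem pr_norm_le (κ : Fin 26 → ℝ → ℂ) (B : ℝ)
    (h : ∀ k, ∀ s ∈ Set.Icc (0:ℝ) 1, ‖κ k s‖ ≤ B) (G : XX) : ‖pr κ G‖ ≤ (26 * B) * ‖G‖ := by
  unfold pr
  refine (norm_sum_le _ _).trans ?_
  have : ∀ k ∈ (Finset.univ : Finset (Fin 26)), ‖∫ s in (0:ℝ)..1, G s k * κ k s‖ ≤ ‖G‖ * B := by
    intro k _
    have h1 : ‖∫ s in (0:ℝ)..1, G s k * κ k s‖ ≤ (‖G‖ * B) * |(1:ℝ) - 0| := by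
      apply intervalIntegral.norm_integral_le_of_norm_le_const
      intro s hs
      rw [Set.uIoc_of_le zero_le_one] at hs
      rw [norm_mul]
      exact mul_le_mul (norm_comp_le G k s) (h k s ⟨hs.1.le, hs.2⟩) (norm_nonneg _) (norm_nonneg _)
    simpa using h1
  refine (Finset.sum_le_sum this).trans ?_
  rw [Finset.sum_const, Finset.card_univ, Fintype.card_fin, nsmul_eq_mul]
  apply le_of_eq
  push_cast
  ring

/-- the pairing functional as a continuous linear map -/
noncomputable def prCLM (κ : Fin 26 → ℝ → ℂ) (hκ : ∀ k, Continuous (κ k)) (B : ℝ)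
    (h : ∀ k, ∀ s ∈ Set.Icc (0:ℝ) 1, ‖κ k s‖ ≤ B) : XX →L[ℂ] ℂ :=
  LinearMap.mkContinuous
    { toFun := pr κ
      map_add' := by
        intro G H
        unfold pr
        rw [← Finset.sum_add_distrib]
        apply Finset.sum_congr rfl
        intro k _
        rw [← intervalIntegral.integral_add]
        · apply intervalIntegral.integral_congr
          intro s _
          simp only [BoundedContinuousFunction.coe_add, Pi.add_apply]
          ring
        · exact ((cont_comp G k).mul (hκ k)).intervalIntegrable _ _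
        · exact ((cont_comp H k).mul (hκ k)).intervalIntegrable _ _
      map_smul' := by
        intro r G
        unfold pr
        rw [RingHom.id_apply, smul_eq_mul, Finset.mul_sum]
        apply Finset.sum_congr rfl
        intro k _
        rw [← intervalIntegral.integral_const_mul]
        apply intervalIntegral.integral_congr
        intro s _
        simp only [BoundedContinuousFunction.coe_smul, Pi.smul_apply, smul_eq_mul]
        ring }
    (26 * B) (pr_norm_le κ B h)

theorem prCLM_apply (κ : Fin 26 → ℝ → ℂ) (hκ : ∀ k, Continuous (κ k)) (B : ℝ)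
    (h : ∀ k, ∀ s ∈ Set.Icc (0:ℝ) 1, ‖κ k s‖ ≤ B) (G : XX) : prCLM κ hκ B h G = pr κ G := rfl

theorem prCLM_norm (κ : Fin 26 → ℝ → ℂ) (hκ : ∀ k, Continuous (κ k)) (B : ℝ)
    (h : ∀ k, ∀ s ∈ Set.Icc (0:ℝ) 1, ‖κ k s‖ ≤ B) : ‖prCLM κ hκ B h‖ ≤ 26 * B := by
  apply LinearMap.mkContinuous_norm_le
  have := (norm_nonneg _).trans (h 0 0 ⟨le_refl _, zero_le_one⟩)
  positivity

/-- clamping to `[0,1]` -/
noncomputable def clamp (s : ℝ) : ℝ := max 0 (min s 1)

theorem clamp_of_mem {s : ℝ} (hs : s ∈ Set.Icc (0:ℝ) 1) : clamp s = s := by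
  unfold clamp
  rw [min_eq_left hs.2, max_eq_right hs.1]

theorem clamp_abs_le (s : ℝ) : ‖(clamp s : ℂ)‖ ≤ 1 := by
  rw [Complex.norm_real, Real.norm_eq_abs, abs_le]
  unfold clamp
  constructor
  · exact le_trans (by norm_num) (le_max_left _ _)
  · exact max_le (by norm_num) (min_le_right _ _)

theorem continuous_clamp : Continuous clamp := by
  unfold clamp
  fun_prop

/-- basis functions -/
noncomputable def bas (u v : Fin 26 → ℂ) (n : ℕ) : XX :=
  BoundedContinuousFunction.ofNormedAddCommGroup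
    (fun s k => (u k + (clamp s : ℂ) * v k) * Complex.exp (-(2 * Real.pi * Complex.I * s * n / 24)))
    (by
      apply continuous_pi
      intro k
      have := continuous_clamp
      fun_prop)
    (‖u‖ + ‖v‖)
    (by
      intro s
      rw [pi_norm_le_iff_of_nonneg (by positivity)]
      intro k
      have h1 : ‖Complex.exp (-(2 * Real.pi * Complex.I * s * n / 24))‖ = 1 := by
        have : -(2 * Real.pi * Complex.I * s * n / 24) =
            ((-(2 * Real.pi * s * n / 24) : ℝ) : ℂ) * Complex.I := by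
          push_cast
          ring
        rw [this, Complex.norm_exp_ofReal_mul_I]
      rw [norm_mul, h1, mul_one]
      refine (norm_add_le _ _).trans ?_
      rw [norm_mul]
      have h2 := norm_le_pi_norm u k
      have h3 := norm_le_pi_norm v k
      have h4 := clamp_abs_le s
      have h5 : ‖(clamp s : ℂ)‖ * ‖v k‖ ≤ 1 * ‖v‖ :=
        mul_le_mul h4 h3 (norm_nonneg _) zero_le_one
      linarith)

theorem bas_apply (u v : Fin 26 → ℂ) (n : ℕ) (s : ℝ) (k : Fin 26) :
    bas u v n s k =
      (u k + (clamp s : ℂ) * v k) * Complex.exp (-(2 * Real.pi * Complex.I * s * n / 24)) := rfl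

theorem bas_norm (u v : Fin 26 → ℂ) (n : ℕ) : ‖bas u v n‖ ≤ ‖u‖ + ‖v‖ :=
  BoundedContinuousFunction.norm_ofNormedAddCommGroup_le _ (by positivity) _

theorem pr_bas (u v : Fin 26 → ℂ) (n m : ℕ) (α β : ℂ) :
    pr (fun k s => (α + β * ((s : ℂ) + (k : ℕ) - 13)) *
      Complex.exp (2 * Real.pi * Complex.I * ((s : ℂ) + (k : ℕ) - 13) * m / 24)) (bas u v n) =
    ∫ s in (0:ℝ)..1, (α * S0 u m + β * ((s : ℂ) * S0 u m + S1 u m) +
      (s : ℂ) * (α * S0 v m + β * ((s : ℂ) * S0 v m + S1 v m))) *
        Complex.exp (2 * Real.pi * Complex.I * s * ((m : ℂ) - n) / 24) := by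
  unfold pr
  rw [← intervalIntegral.integral_finsetSum]
  · apply intervalIntegral.integral_congr
    intro s hs
    rw [Set.uIcc_of_le zero_le_one] at hs
    simp only
    have e1 : ∀ k : Fin 26, bas u v n s k * ((α + β * ((s : ℂ) + (k : ℕ) - 13)) *
      Complex.exp (2 * Real.pi * Complex.I * ((s : ℂ) + (k : ℕ) - 13) * m / 24)) =
      (α * (u k * EE k m) + β * ((s : ℂ) * (u k * EE k m) + (((k : ℕ) : ℂ) - 13) * u k * EE k m) +
      (s : ℂ) * (α * (v k * EE k m) + β * ((s : ℂ) * (v k * EE k m) +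
        (((k : ℕ) : ℂ) - 13) * v k * EE k m))) *
        Complex.exp (2 * Real.pi * Complex.I * s * ((m : ℂ) - n) / 24) := by
      intro k
      rw [bas_apply, clamp_of_mem hs, EE_eq]
      have e2 : Complex.exp (2 * Real.pi * Complex.I * ((s : ℂ) + (k : ℕ) - 13) * m / 24) =
          Complex.exp (2 * Real.pi * Complex.I * ((k : ℕ) - 13) * m / 24) *
          Complex.exp (2 * Real.pi * Complex.I * s * ((m : ℂ) - n) / 24) *
          Complex.exp (2 * Real.pi * Complex.I * s * n / 24) := by
        rw [← Complex.exp_add, ← Complex.exp_add]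
        congr 1
        ring
      have e3 : Complex.exp (-(2 * Real.pi * Complex.I * s * n / 24)) *
          Complex.exp (2 * Real.pi * Complex.I * s * n / 24) = 1 := by
        rw [← Complex.exp_add]
        simp
      rw [e2]
      linear_combination ((u k + (s : ℂ) * v k) * (α + β * ((s : ℂ) + (k : ℕ) - 13)) *
        Complex.exp (2 * Real.pi * Complex.I * ((k : ℕ) - 13) * m / 24) *
          Complex.exp (2 * Real.pi * Complex.I * s * ((m : ℂ) - n) / 24)) * e3
    rw [Finset.sum_congr rfl (fun k _ => e1 k), ← Finset.sum_mul]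
    congr 1
    unfold S0 S1
    simp only [mul_add, Finset.mul_sum, Finset.sum_add_distrib]
  · intro k _
    apply Continuous.intervalIntegrable
    apply (cont_comp _ k).mul
    fun_prop

theorem int_exp (n m : ℕ) (h : n % 24 = m % 24) :
    ∫ s in (0:ℝ)..1, Complex.exp (2 * Real.pi * Complex.I * s * ((m : ℂ) - n) / 24) =
      if m = n then 1 else 0 := by
  split_ifs with hmn
  · subst hmn
    simp
  · obtain ⟨q, hq⟩ : ∃ q : ℤ, (m : ℤ) - n = 24 * q := by
      have : (24 : ℤ) ∣ (m : ℤ) - n := by omega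
      exact this
    have hq0 : q ≠ 0 := by
      rintro rfl
      apply hmn
      omega
    have hqc : (m : ℂ) - n = 24 * (q : ℂ) := by exact_mod_cast hq
    have e1 : (fun s : ℝ => Complex.exp (2 * Real.pi * Complex.I * s * ((m : ℂ) - n) / 24)) =
        fun s : ℝ => Complex.exp ((2 * Real.pi * Complex.I * q) * s) := by
      funext s
      congr 1
      rw [hqc]
      ring
    have hpi : (Real.pi : ℂ) ≠ 0 := by exact_mod_cast Real.pi_ne_zero
    have hqC : (q : ℂ) ≠ 0 := by exact_mod_cast hq0
    rw [e1, integral_exp_mul_complex (by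
      apply mul_ne_zero
      · exact mul_ne_zero (mul_ne_zero two_ne_zero hpi) Complex.I_ne_zero
      · exact hqC)]
    have e2 : Complex.exp (2 * Real.pi * Complex.I * q * ((1 : ℝ) : ℂ)) = 1 := by
      have : 2 * Real.pi * Complex.I * q * ((1 : ℝ) : ℂ) = q * (2 * Real.pi * Complex.I) := by
        push_cast
        ring
      rw [this, Complex.exp_int_mul_two_pi_mul_I]
    rw [e2]
    simp

end Pool.Agent.helper37
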