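import Pool.Agent.helper37.HexF

set_option autoImplicit false

namespace Pool.Agent.helper37

open Filter Topology MeasureTheory
open scoped BoundedContinuousFunction

noncomputable def lam : ℝ := Real.sqrt (4 / 3)

theorem lam_sq : lam ^ 2 = 4 / 3 := Real.sq_sqrt (by norm_num)

theorem lam_pos : 0 < lam := Real.sqrt_pos.mpr (by norm_num)

theorem one_le_lam : 1 ≤ lam := by
  have h := lam_sq
  have h' := lam_pos
  nlinarith

noncomputable def th (k : Fin 26) (s : ℝ) : ℝ := (s + (k : ℕ) - 13) / (12 * lam)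

noncomputable def tau (k : Fin 26) (s : ℝ) : ℂ := (th k s : ℂ) + Complex.I * ((1 / 4 : ℝ) : ℂ)

noncomputable def nu (k : Fin 26) (s : ℝ) : ℂ := -1 / tau k s - Complex.I * ((1 / 4 : ℝ) : ℂ)

theorem continuous_th (k : Fin 26) : Continuous (th k) := by
  unfold th
  fun_prop

theorem tau_im (k : Fin 26) (s : ℝ) : (tau k s).im = 1 / 4 := by
  simp [tau]

theorem tau_re (k : Fin 26) (s : ℝ) : (tau k s).re = th k s := by
  simp [tau]

theorem tau_ne_zero (k : Fin 26) (s : ℝ) : tau k s ≠ 0 := by
  intro h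
  have := tau_im k s
  rw [h] at this
  norm_num at this

theorem continuous_tau (k : Fin 26) : Continuous (tau k) := by
  unfold tau
  have := continuous_th k
  fun_prop

theorem continuous_inv_tau (k : Fin 26) : Continuous (fun s => (tau k s)⁻¹) :=
  (continuous_tau k).inv₀ (tau_ne_zero k)

theorem continuous_nu (k : Fin 26) : Continuous (nu k) := by
  unfold nu
  have := continuous_inv_tau k
  simp only [neg_div, one_div]
  fun_prop

theorem th_sq_le (k : Fin 26) {s : ℝ} (hs : s ∈ Set.Icc (0:ℝ) 1) : (th k s) ^ 2 ≤ 169 / 192 := by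
  unfold th
  rw [div_pow, mul_pow, lam_sq]
  have hk : ((k : ℕ) : ℝ) ≤ 25 := by
    have := k.2
    exact_mod_cast Nat.lt_succ_iff.mp this
  have hk0 : (0 : ℝ) ≤ ((k : ℕ) : ℝ) := by positivity
  have h1 : (s + (k : ℕ) - 13) ^ 2 ≤ 169 := by
    have h2 := hs.1
    have h3 := hs.2
    nlinarith
  rw [div_le_div_iff₀ (by norm_num) (by norm_num)]
  linarith

theorem normSq_tau (k : Fin 26) (s : ℝ) : Complex.normSq (tau k s) = (th k s) ^ 2 + 1 / 16 := by
  rw [Complex.normSq_apply, tau_re, tau_im]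
  ring

theorem nu_im_ge (k : Fin 26) {s : ℝ} (hs : s ∈ Set.Icc (0:ℝ) 1) : 11 / 724 ≤ (nu k s).im := by
  have h1 : (nu k s).im = (1 / 4) / Complex.normSq (tau k s) - 1 / 4 := by
    unfold nu
    rw [Complex.sub_im, neg_div, Complex.neg_im, one_div, Complex.inv_im, tau_im]
    simp
    ring
  rw [h1, normSq_tau]
  have h2 := th_sq_le k hs
  have h3 : 0 < (th k s) ^ 2 + 1 / 16 := by positivity
  have h4 : (1 / 4) / (181 / 192) ≤ (1 / 4) / ((th k s) ^ 2 + 1 / 16) := by
    apply div_le_div_of_nonneg_left (by norm_num) h3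
    linarith
  have h5 : (1 / 4 : ℝ) / (181 / 192) = 1 / 4 + 11 / 724 := by norm_num
  linarith

theorem inv_tau_norm (k : Fin 26) (s : ℝ) : ‖(tau k s)⁻¹‖ ≤ 4 := by
  rw [norm_inv]
  have h1 : (1 / 4 : ℝ) ≤ ‖tau k s‖ := by
    have := Complex.abs_im_le_norm (tau k s)
    rw [tau_im] at this
    rwa [abs_of_pos (by norm_num)] at this
  rw [inv_le_comm₀ (by linarith) (by norm_num)]
  linarith

theorem nu_norm (k : Fin 26) (s : ℝ) : ‖nu k s‖ ≤ 5 := by
  unfold nu
  refine (norm_sub_le _ _).trans ?_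
  rw [neg_div, norm_neg, one_div, norm_mul, Complex.norm_I, Complex.norm_real]
  have := inv_tau_norm k s
  have h2 : ‖(1 / 4 : ℝ)‖ = 1 / 4 := by norm_num
  rw [h2]
  linarith

/-- kernels for the function itself -/
noncomputable def phiK (T : ℝ) (b : Bool) (k : Fin 26) (s : ℝ) : ℂ :=
  (if b then Complex.I * Real.pi * (th k s : ℂ) else 1) *
    Complex.exp (Complex.I * Real.pi * (th k s : ℂ) * T)

/-- kernels for the Fourier transform -/
noncomputable def psiK (T : ℝ) (b : Bool) (k : Fin 26) (s : ℝ) : ℂ :=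
  ((Complex.I / tau k s) * (if b then Complex.I * Real.pi * nu k s else 1)) *
    Complex.exp (Complex.I * Real.pi * nu k s * T)

theorem continuous_phiK (T : ℝ) (b : Bool) (k : Fin 26) : Continuous (phiK T b k) := by
  unfold phiK
  have := continuous_th k
  cases b
  · simp only [Bool.false_eq_true, if_false]; fun_prop
  · simp only [if_true]; fun_prop

theorem continuous_psiK (T : ℝ) (b : Bool) (k : Fin 26) : Continuous (psiK T b k) := by
  unfold psiK
  have := continuous_nu k
  have h2 := continuous_inv_tau k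
  simp only [div_eq_mul_inv]
  cases b
  · simp only [Bool.false_eq_true, if_false]; fun_prop
  · simp only [if_true]; fun_prop

theorem phiK_norm (T : ℝ) (b : Bool) (k : Fin 26) {s : ℝ} (hs : s ∈ Set.Icc (0:ℝ) 1) :
    ‖phiK T b k s‖ ≤ 4 := by
  unfold phiK
  have h1 : ‖Complex.exp (Complex.I * Real.pi * (th k s : ℂ) * T)‖ = 1 := by
    have : Complex.I * Real.pi * (th k s : ℂ) * T = ((Real.pi * th k s * T : ℝ) : ℂ) * Complex.I := by
      push_cast; ring
    rw [this, Complex.norm_exp_ofReal_mul_I]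
  rw [norm_mul, h1, mul_one]
  cases b
  · simp
  · simp only [if_true]
    rw [norm_mul, norm_mul, Complex.norm_I, Complex.norm_real, Complex.norm_real, one_mul,
      Real.norm_of_nonneg Real.pi_pos.le]
    have h2 : ‖th k s‖ ≤ 1 := by
      rw [Real.norm_eq_abs, ← sq_le_one_iff_abs_le_one]
      have := th_sq_le k hs
      linarith
    have h3 := Real.pi_le_four
    calc Real.pi * ‖th k s‖ ≤ 4 * 1 := by gcongr
      _ = 4 := by norm_num

theorem psiK_norm (n : ℕ) (b : Bool) (k : Fin 26) {s : ℝ} (hs : s ∈ Set.Icc (0:ℝ) 1) :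
    ‖psiK (lam * n) b k s‖ ≤ 80 * Real.exp (-(1/100)) ^ n := by
  unfold psiK
  have h1 : ‖Complex.exp (Complex.I * Real.pi * nu k s * ((lam * n : ℝ) : ℂ))‖
      ≤ Real.exp (-(1/100)) ^ n := by
    rw [Complex.norm_exp, ← Real.exp_nat_mul, Complex.re_mul_ofReal]
    apply Real.exp_le_exp.mpr
    have e1 : (Complex.I * Real.pi * nu k s).re = -(Real.pi * (nu k s).im) := by
      simp
    rw [e1]
    have h2 := nu_im_ge k hs
    have h3 : (3 : ℝ) < Real.pi := Real.pi_gt_three
    have h4 : 1 / 100 ≤ Real.pi * (nu k s).im := by nlinarith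
    have h5 : (0 : ℝ) ≤ n := by positivity
    have h6 : (n : ℝ) * (1/100) ≤ (Real.pi * (nu k s).im) * (lam * n) := by
      have h7 := one_le_lam
      calc (n : ℝ) * (1/100) = (1 / 100) * (1 * n) := by ring
        _ ≤ (Real.pi * (nu k s).im) * (lam * n) := by gcongr
    linarith
  have h2 : ‖(Complex.I / tau k s) * (if b then Complex.I * Real.pi * nu k s else 1)‖ ≤ 80 := by
    rw [norm_mul, div_eq_mul_inv, norm_mul, Complex.norm_I, one_mul]
    have h3 := inv_tau_norm k s
    have h4 : ‖(if b then Complex.I * Real.pi * nu k s else 1)‖ ≤ 20 := by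
      cases b
      · simp
      · simp only [if_true]
        rw [norm_mul, norm_mul, Complex.norm_I, Complex.norm_real, one_mul,
          Real.norm_of_nonneg Real.pi_pos.le]
        have h3 := Real.pi_le_four
        have h5 := nu_norm k s
        calc Real.pi * ‖nu k s‖ ≤ 4 * 5 := by gcongr
          _ = 20 := by norm_num
    calc ‖(tau k s)⁻¹‖ * ‖(if b then Complex.I * Real.pi * nu k s else 1)‖ ≤ 4 * 20 := by gcongr
      _ = 80 := by norm_num
  rw [norm_mul]
  gcongr

theorem S_neg (c : Fin 26 → ℂ) (n : ℕ) : S0 (-c) n = -S0 c n ∧ S1 (-c) n = -S1 c n := by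
  unfold S0 S1
  constructor
  · rw [← Finset.sum_neg_distrib]
    apply Finset.sum_congr rfl; intro k _; simp only [Pi.neg_apply]; ring
  · rw [← Finset.sum_neg_distrib]
    apply Finset.sum_congr rfl; intro k _; simp only [Pi.neg_apply]; ring

theorem S_smul (r : ℂ) (c : Fin 26 → ℂ) (n : ℕ) :
    S0 (r • c) n = r * S0 c n ∧ S1 (r • c) n = r * S1 c n := by
  unfold S0 S1
  constructor
  · rw [Finset.mul_sum]
    apply Finset.sum_congr rfl; intro k _; simp only [Pi.smul_apply, smul_eq_mul]; ring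
  · rw [Finset.mul_sum]
    apply Finset.sum_congr rfl; intro k _; simp only [Pi.smul_apply, smul_eq_mul]; ring

theorem S_zero (n : ℕ) : S0 0 n = 0 ∧ S1 0 n = 0 := by
  unfold S0 S1
  simp

/-- index type -/
abbrev Idx : Type := {n : ℕ // n % 24 ∈ resSet} × Bool

theorem summable_idx (r : ℝ) (hr0 : 0 ≤ r) (hr1 : r < 1) :
    Summable (fun i : Idx => 26 * (80 * r ^ (i.1 : ℕ))) := by
  have hs1 : Summable (fun n : ℕ => 26 * (80 * r ^ n)) := by
    apply Summable.mul_left
    apply Summable.mul_left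
    exact summable_geometric_of_lt_one hr0 hr1
  have hs2 : Summable (fun p : ℕ × Bool => (26 * (80 * r ^ p.1)) * (1 : ℝ)) :=
    hs1.mul_of_nonneg (g := fun _ : Bool => (1:ℝ)) (hasSum_fintype _).summable
      (fun n => by positivity) (fun _ => zero_le_one)
  have hinj : Function.Injective (fun i : Idx => ((i.1 : ℕ), i.2)) := by
    rintro ⟨⟨n, hn⟩, β⟩ ⟨⟨m, hm⟩, β'⟩ h
    simp only [Prod.mk.injEq] at h
    obtain ⟨h1, h2⟩ := h
    subst h1
    subst h2
    rfl
  refine (hs2.comp_injective hinj).congr ?_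
  intro i
  simp only [Function.comp, mul_one]

theorem pr_phiK (n : ℕ) (b : Bool) (u v : Fin 26 → ℂ) (m : ℕ) :
    pr (phiK (lam * n) b) (bas u v m) =
    ∫ s in (0:ℝ)..1, ((if b then 0 else 1) * S0 u n +
      (if b then Complex.I * Real.pi / (12 * lam) else 0) * ((s : ℂ) * S0 u n + S1 u n) +
      (s : ℂ) * ((if b then 0 else 1) * S0 v n +
      (if b then Complex.I * Real.pi / (12 * lam) else 0) * ((s : ℂ) * S0 v n + S1 v n))) *
        Complex.exp (2 * Real.pi * Complex.I * s * ((n : ℂ) - m) / 24) := by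
  rw [← pr_bas]
  congr 1
  funext k s
  unfold phiK th
  have hl : (lam : ℂ) ≠ 0 := by exact_mod_cast lam_pos.ne'
  have e1 : Complex.I * Real.pi * (((s + (k : ℕ) - 13) / (12 * lam) : ℝ) : ℂ) * ((lam * n : ℝ) : ℂ) =
      2 * Real.pi * Complex.I * ((s : ℂ) + (k : ℕ) - 13) * n / 24 := by
    push_cast
    field_simp
    ring
  rw [e1]
  congr 1
  cases b
  · simp
  · simp only [if_true]
    push_cast
    field_simp
    ring

/-- The key existence statement: a coefficient function with all the wanted vanishing. -/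
theorem exists_G : ∃ G : XX,
    (∀ n : ℕ, n % 24 ∈ resSet → n % 24 ≠ 2 → ∀ b : Bool,
      pr (phiK (lam * n) b) G + pr (psiK (lam * n) b) G = 0) ∧
    ∃ n : ℕ, pr (phiK (lam * n) false) G + pr (psiK (lam * n) false) G ≠ 0 := by
  classical
  obtain ⟨c, c', hc⟩ := exists_coeff
  set γ : ℂ := (12 * lam) / (Complex.I * Real.pi) with hγ
  have hl : (lam : ℂ) ≠ 0 := by exact_mod_cast lam_pos.ne'
  have hpi : (Real.pi : ℂ) ≠ 0 := by exact_mod_cast Real.pi_ne_zero
  have hβγ : Complex.I * Real.pi / (12 * lam) * γ = 1 := by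
    rw [hγ]
    field_simp
  let φ : Idx → XX →L[ℂ] ℂ := fun i =>
    prCLM (phiK (lam * (i.1 : ℕ)) i.2) (continuous_phiK _ _) 4 (fun k s hs => phiK_norm _ _ k hs)
  let ψ : Idx → XX →L[ℂ] ℂ := fun i =>
    prCLM (psiK (lam * (i.1 : ℕ)) i.2) (continuous_psiK _ _) (80 * Real.exp (-(1/100)) ^ (i.1 : ℕ))
      (fun k s hs => psiK_norm _ _ k hs)
  have hφa : ∀ i G, φ i G = pr (phiK (lam * (i.1 : ℕ)) i.2) G := fun _ _ => rfl
  have hψa : ∀ i G, ψ i G = pr (psiK (lam * (i.1 : ℕ)) i.2) G := fun _ _ => rfl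
  have hψn : ∀ i, ‖ψ i‖ ≤ 26 * (80 * Real.exp (-(1/100)) ^ (i.1 : ℕ)) := fun i =>
    prCLM_norm _ _ _ _
  clear_value φ ψ
  let b : Idx → XX := fun i =>
    if i.2 then bas (γ • c' ((i.1 : ℕ) % 24)) 0 i.1
    else bas (c ((i.1 : ℕ) % 24)) (-c' ((i.1 : ℕ) % 24)) i.1
  have hφ : ∀ i j : Idx, φ i (b j) = if i = j then 1 else 0 := by
    rintro ⟨⟨n, hn⟩, β⟩ ⟨⟨m, hm⟩, β'⟩
    rw [hφa]
    change pr (phiK (lam * n) β) (b _) = _
    obtain ⟨h1, h2, h3, h4⟩ := hc (m % 24) hm n hn
    cases β'
    · simp only [b, Bool.false_eq_true, if_false]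
      rw [pr_phiK, (S_neg _ _).1, (S_neg _ _).2, h1, h2, h3, h4]
      by_cases hnm : n % 24 = m % 24
      · have hint := int_exp m n hnm.symm
        simp only [hnm, if_true]
        cases β
        · simp only [Bool.false_eq_true, if_false]
          have e1 : (fun s : ℝ => (((1:ℂ) * 1 + 0 * ((s : ℂ) * 1 + 0) +
              (s : ℂ) * (1 * -0 + 0 * ((s : ℂ) * -0 + -1))) *
              Complex.exp (2 * Real.pi * Complex.I * s * ((n : ℂ) - m) / 24))) =
              fun s : ℝ => Complex.exp (2 * Real.pi * Complex.I * s * ((n : ℂ) - m) / 24) := by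
            funext s
            ring
          rw [e1, hint]
          by_cases h : n = m
          · subst h; simp
          · rw [if_neg h, if_neg]
            intro h'
            apply h
            simpa using congrArg (fun i : Idx => (i.1 : ℕ)) h'
        · simp only [if_true]
          have e1 : (fun s : ℝ => (((0:ℂ) * 1 + Complex.I * Real.pi / (12 * lam) * ((s : ℂ) * 1 + 0) +
              (s : ℂ) * (0 * -0 + Complex.I * Real.pi / (12 * lam) * ((s : ℂ) * -0 + -1))) *
              Complex.exp (2 * Real.pi * Complex.I * s * ((n : ℂ) - m) / 24))) =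
              fun s : ℝ => 0 := by
            funext s
            ring
          rw [e1]
          simp
      · simp only [hnm, if_false]
        have hne : ¬ ((⟨⟨n, hn⟩, β⟩ : Idx) = ⟨⟨m, hm⟩, false⟩) := by
          intro h'
          apply hnm
          have := congrArg (fun i : Idx => (i.1 : ℕ)) h'
          simp only at this
          rw [this]
        rw [if_neg hne]
        simp
    · simp only [b, if_true]
      rw [pr_phiK, (S_smul _ _ _).1, (S_smul _ _ _).2, (S_zero _).1, (S_zero _).2, h3, h4]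
      by_cases hnm : n % 24 = m % 24
      · have hint := int_exp m n hnm.symm
        simp only [hnm, if_true]
        cases β
        · simp only [Bool.false_eq_true, if_false]
          simp
        · simp only [if_true]
          have e1 : (fun s : ℝ => (((0:ℂ) * (γ * 0) +
              Complex.I * Real.pi / (12 * lam) * ((s : ℂ) * (γ * 0) + γ * 1) +
              (s : ℂ) * (0 * 0 + Complex.I * Real.pi / (12 * lam) * ((s : ℂ) * 0 + 0))) *
              Complex.exp (2 * Real.pi * Complex.I * s * ((n : ℂ) - m) / 24))) =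
              fun s : ℝ => Complex.exp (2 * Real.pi * Complex.I * s * ((n : ℂ) - m) / 24) := by
            funext s
            linear_combination (Complex.exp (2 * Real.pi * Complex.I * s * ((n : ℂ) - m) / 24)) * hβγ
          rw [e1, hint]
          by_cases h : n = m
          · subst h; simp
          · rw [if_neg h, if_neg]
            intro h'
            apply h
            simpa using congrArg (fun i : Idx => (i.1 : ℕ)) h'
      · simp only [hnm, if_false]
        have hne : ¬ ((⟨⟨n, hn⟩, β⟩ : Idx) = ⟨⟨m, hm⟩, true⟩) := by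
          intro h'
          apply hnm
          have := congrArg (fun i : Idx => (i.1 : ℕ)) h'
          simp only at this
          rw [this]
        rw [if_neg hne]
        simp
  set C : ℝ := 1 + ∑ a ∈ resSet, (‖c a‖ + ‖c' a‖ + ‖γ‖ * ‖c' a‖) with hCdef
  have hCpos : 0 < C := by
    have : 0 ≤ ∑ a ∈ resSet, (‖c a‖ + ‖c' a‖ + ‖γ‖ * ‖c' a‖) :=
      Finset.sum_nonneg fun a _ => by positivity
    linarith
  have hbC : ∀ i, ‖b i‖ ≤ C := by
    rintro ⟨⟨m, hm⟩, β⟩
    have h1 : ‖c (m % 24)‖ + ‖c' (m % 24)‖ + ‖γ‖ * ‖c' (m % 24)‖ ≤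
        ∑ a ∈ resSet, (‖c a‖ + ‖c' a‖ + ‖γ‖ * ‖c' a‖) :=
      Finset.single_le_sum (f := fun a => ‖c a‖ + ‖c' a‖ + ‖γ‖ * ‖c' a‖)
        (fun a _ => by positivity) hm
    cases β
    · simp only [b, Bool.false_eq_true, if_false]
      refine (bas_norm _ _ _).trans ?_
      rw [norm_neg]
      have : 0 ≤ ‖γ‖ * ‖c' (m % 24)‖ := by positivity
      linarith
    · simp only [b, if_true]
      refine (bas_norm _ _ _).trans ?_
      rw [norm_smul, norm_zero]
      have : 0 ≤ ‖c (m % 24)‖ := by positivity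
      have : 0 ≤ ‖c' (m % 24)‖ := by positivity
      linarith
  have hψsum : Summable (fun i => ‖ψ i‖) := by
    have hr1 : Real.exp (-(1/100)) < 1 := by
      rw [Real.exp_lt_one_iff]
      norm_num
    exact Summable.of_nonneg_of_le (fun i => norm_nonneg (ψ i)) hψn
      (summable_idx _ (Real.exp_pos _).le hr1)
  let J : Set Idx := {i | (i.1 : ℕ) % 24 = 2 ∧ i.2 = false}
  have h2mem : ∀ n : ℕ, (24 * n + 2) % 24 ∈ resSet := by
    intro n
    have : (24 * n + 2) % 24 = 2 := by omega
    rw [this]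
    decide
  have hJ : J.Infinite := by
    have hinj : Function.Injective (fun n : ℕ => ((⟨24 * n + 2, h2mem n⟩, false) : Idx)) := by
      intro n m h
      have := congrArg (fun i : Idx => (i.1 : ℕ)) h
      simp only at this
      omega
    apply Set.infinite_of_injective_forall_mem hinj
    intro n
    refine ⟨?_, rfl⟩
    change (24 * n + 2) % 24 = 2
    omega
  obtain ⟨G, hG1, j, hj, hG2⟩ := abstract_solve φ ψ b C hCpos hbC
    (fun i => by rw [hφ, if_pos rfl]) (fun i j hij => by rw [hφ, if_neg hij]) hψsum J hJ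
  refine ⟨G, ?_, ?_⟩
  · intro n hn hn2 β
    have := hG1 (⟨n, hn⟩, β) (fun h => hn2 h.1)
    rwa [hφa, hψa] at this
  · refine ⟨j.1, ?_⟩
    have hj2 : j.2 = false := hj.2
    rwa [hφa, hψa, hj2] at hG2

end Pool.Agent.helper37
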