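import Pool.Agent.helper37.HexG

set_option autoImplicit false

namespace Pool.Agent.helper37

open Filter Topology MeasureTheory
open scoped SchwartzMap FourierTransform BoundedContinuousFunction

theorem pr_phi_eq (T : ℝ) (b : Bool) (G : XX) : pr (phiK T b) G =
    ∑ k, ex (fun s => G s k * (if b then Complex.I * Real.pi * (th k s : ℂ) else 1))
      (fun s => (th k s : ℂ)) T := by
  unfold pr ex phiK
  apply Finset.sum_congr rfl
  intro k _
  apply intervalIntegral.integral_congr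
  intro s _
  simp only
  ring

theorem pr_psi_eq (T : ℝ) (b : Bool) (G : XX) : pr (psiK T b) G =
    ∑ k, ex (fun s => (G s k * (Complex.I / tau k s)) *
      (if b then Complex.I * Real.pi * nu k s else 1)) (nu k) T := by
  unfold pr ex psiK
  apply Finset.sum_congr rfl
  intro k _
  apply intervalIntegral.integral_congr
  intro s _
  simp only
  ring

/-- the radial profile, up to the Gaussian factor -/
noncomputable def HH (G : XX) (T : ℝ) : ℂ := pr (phiK T false) G + pr (psiK T false) G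

theorem cont_w' (G : XX) (k : Fin 26) : Continuous (fun s => G s k * (Complex.I / tau k s)) := by
  have h1 := cont_comp G k
  have h2 := continuous_inv_tau k
  simp only [div_eq_mul_inv]
  fun_prop

theorem hasDerivAt_HH (G : XX) (T : ℝ) :
    HasDerivAt (HH G) (pr (phiK T true) G + pr (psiK T true) G) T := by
  have e : HH G = fun T => (∑ k, ex (fun s => G s k) (fun s => (th k s : ℂ)) T) +
      ∑ k, ex (fun s => G s k * (Complex.I / tau k s)) (nu k) T := by
    funext T
    unfold HH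
    rw [pr_phi_eq, pr_psi_eq]
    simp
  rw [e, pr_phi_eq, pr_psi_eq]
  simp only [if_true]
  apply HasDerivAt.add
  · apply HasDerivAt.fun_sum
    intro k _
    apply hasDerivAt_ex _ _ (cont_comp G k)
    exact Complex.continuous_ofReal.comp (continuous_th k)
  · apply HasDerivAt.fun_sum
    intro k _
    exact hasDerivAt_ex _ _ (cont_w' G k) (continuous_nu k) T

theorem ex_shift (w θ θ' : ℝ → ℂ) (T : ℝ) (h : ∀ s, θ' s = θ s + Complex.I * ((1 / 4 : ℝ) : ℂ)) :
    ex w θ' T = Complex.exp (((-(Real.pi / 4) * T : ℝ) : ℂ)) * ex w θ T := by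
  unfold ex
  rw [← intervalIntegral.integral_const_mul]
  apply intervalIntegral.integral_congr
  intro s _
  simp only
  rw [h]
  have e : Complex.I * Real.pi * (θ s + Complex.I * ((1 / 4 : ℝ) : ℂ)) * T =
      ((-(Real.pi / 4) * T : ℝ) : ℂ) + Complex.I * Real.pi * θ s * T := by
    push_cast
    have hI : Complex.I * Complex.I = -1 := Complex.I_mul_I
    linear_combination ((Real.pi : ℂ) * T / 4) * hI
  rw [e, Complex.exp_add]
  ring

theorem exists_complex : ∃ (F : 𝓢(V2, ℂ)) (H H' : ℝ → ℂ),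
    (∀ v, F v = Complex.exp (((-(Real.pi / 4) * ‖v‖ ^ 2 : ℝ) : ℂ)) * H (‖v‖ ^ 2)) ∧
    𝓕 F = F ∧ F ≠ 0 ∧ (∀ T, HasDerivAt H (H' T) T) ∧
    ∀ n : ℕ, n % 24 ∈ resSet → n % 24 ≠ 2 → H (lam * n) = 0 ∧ H' (lam * n) = 0 := by
  obtain ⟨G, hG1, n0, hG2⟩ := exists_G
  have hk : ∀ k : Fin 26, ∃ f : 𝓢(V2, ℂ), ∀ v : V2, f v = ex (fun s => G s k) (tau k) (‖v‖ ^ 2) := by
    intro k
    obtain ⟨f, hf⟩ := exists_schwartz (fun s => G s k) (th k) (cont_comp G k) (continuous_th k)
      (1/4) (by norm_num)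
    exact ⟨f, fun v => hf v⟩
  choose f hf using hk
  set f0 : 𝓢(V2, ℂ) := ∑ k, f k with hf0
  have hf0v : ∀ v, f0 v = ∑ k, ex (fun s => G s k) (tau k) (‖v‖ ^ 2) := by
    intro v
    rw [hf0, sum_apply]
    exact Finset.sum_congr rfl fun k _ => hf k v
  have hFk : ∀ k ξ, (𝓕 (f k)) ξ = ex (fun s => G s k * (Complex.I / tau k s))
      (fun s => -1 / tau k s) (‖ξ‖ ^ 2) := by
    intro k ξ
    have h1 := fourier_ex (fun s => G s k) (th k) (cont_comp G k) (continuous_th k) ‖G‖
      (fun s => norm_comp_le G k s) (1/4) (by norm_num) ξ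
    rw [SchwartzMap.fourier_coe]
    have h2 : (f k : V2 → ℂ) = fun v : V2 => ex (fun s => G s k)
        (fun s => (th k s : ℂ) + Complex.I * ((1/4 : ℝ) : ℂ)) (‖v‖ ^ 2) := by
      funext v
      exact hf k v
    rw [h2, h1]
    rfl
  have hF0 : ∀ ξ, (𝓕 f0) ξ = ∑ k, ex (fun s => G s k * (Complex.I / tau k s))
      (fun s => -1 / tau k s) (‖ξ‖ ^ 2) := by
    intro ξ
    rw [hf0, FourierTransform.fourier_sum, sum_apply]
    exact Finset.sum_congr rfl fun k _ => hFk k ξ
  set F : 𝓢(V2, ℂ) := f0 + 𝓕 f0 with hF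
  have hval : ∀ v, F v = Complex.exp (((-(Real.pi / 4) * ‖v‖ ^ 2 : ℝ) : ℂ)) * HH G (‖v‖ ^ 2) := by
    intro v
    rw [hF, add_apply, hf0v, hF0]
    unfold HH
    rw [pr_phi_eq, pr_psi_eq, mul_add, Finset.mul_sum, Finset.mul_sum]
    congr 1
    · apply Finset.sum_congr rfl
      intro k _
      rw [ex_shift (fun s => G s k) (fun s => (th k s : ℂ)) (tau k) _ (fun s => rfl)]
      simp
    · apply Finset.sum_congr rfl
      intro k _
      rw [ex_shift (fun s => G s k * (Complex.I / tau k s)) (nu k) (fun s => -1 / tau k s) _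
        (fun s => by unfold nu; ring)]
      simp
  have hrad : ∀ v, f0 (-v) = f0 v := by
    intro v
    rw [hf0v, hf0v, norm_neg]
  have hFF : 𝓕 (𝓕 f0) = f0 := by
    ext v
    have h1 : 𝓕⁻ (𝓕 f0) = f0 := FourierTransform.fourierInv_fourier_eq f0
    have h2 : (𝓕⁻ (𝓕 f0)) (-v) = (𝓕 (𝓕 f0)) v := by
      rw [SchwartzMap.fourierInv_apply_eq]
      simp
    rw [← h2, h1, hrad]
  refine ⟨F, HH G, fun T => pr (phiK T true) G + pr (psiK T true) G, hval, ?_, ?_,
    hasDerivAt_HH G, ?_⟩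
  · rw [hF, FourierTransform.fourier_add, hFF, add_comm]
  · intro hzero
    apply hG2
    have hT : 0 ≤ lam * n0 := mul_nonneg lam_pos.le (by positivity)
    set v : V2 := Real.sqrt (lam * n0) • EuclideanSpace.single (0 : Fin 2) (1 : ℝ) with hv
    have hnv : ‖v‖ ^ 2 = lam * n0 := by
      rw [hv, norm_smul, PiLp.norm_single, norm_one, mul_one, Real.norm_eq_abs, sq_abs,
        Real.sq_sqrt hT]
    have h1 := hval v
    rw [hzero, zero_apply, hnv] at h1
    have h2 := (mul_eq_zero.mp h1.symm).resolve_left (Complex.exp_ne_zero _)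
    exact h2
  · intro n hn hn2
    exact ⟨hG1 n hn hn2 false, hG1 n hn hn2 true⟩

end Pool.Agent.helper37
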